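import Mathlib

/-!
Numerical inequalities for the zonal weights.
-/

namespace Pool.Agent.Lib.MP_e7cc07_co

open Finset

theorem two_pow_ge (p : ℕ) (hp : 1 ≤ p) : p ≤ 2 ^ (p - 1) := by
  obtain ⟨m, rfl⟩ : ∃ m, p = m + 1 := ⟨p - 1, by omega⟩
  simp only [Nat.add_sub_cancel]
  exact Nat.lt_two_pow_self

theorem two_pow_ge' (p : ℕ) (hp : 1 ≤ p) : 2 * p ≤ 2 ^ (p - 1) + 3 := by
  obtain ⟨m, rfl⟩ : ∃ m, p = m + 1 := ⟨p - 1, by omega⟩
  simp only [Nat.add_sub_cancel]
  clear hp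
  induction m with
  | zero => norm_num
  | succ m ih =>
    rw [pow_succ]
    rcases Nat.lt_or_ge m 1 with h | h
    · interval_cases m
      norm_num
    · have : m + 1 ≤ 2 ^ m := Nat.lt_two_pow_self
      have h2 : 2 ≤ 2 ^ m := by omega
      omega

/-- The weights `(p-(j-t))! (b-t)!` decrease. -/
theorem weight_anti (p b j t : ℕ) (hjp : j ≤ p) (ht : t + 1 ≤ j) (hb : p + j ≤ b + 1) :
    (p - (j - (t + 1))).factorial * (b - (t + 1)).factorial
      ≤ (p - (j - t)).factorial * (b - t).factorial := by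
  have e1 : p - (j - (t + 1)) = (p - (j - t)) + 1 := by omega
  have e2 : b - t = (b - (t + 1)) + 1 := by omega
  rw [e1, e2, Nat.factorial_succ, Nat.factorial_succ]
  have h3 : p - (j - t) + 1 ≤ b - (t + 1) + 1 := by omega
  calc (p - (j - t) + 1) * (p - (j - t)).factorial * (b - (t + 1)).factorial
      = (p - (j - t) + 1) * ((p - (j - t)).factorial * (b - (t + 1)).factorial) := by ring
    _ ≤ (b - (t + 1) + 1) * ((p - (j - t)).factorial * (b - (t + 1)).factorial) :=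
        Nat.mul_le_mul_right _ h3
    _ = (p - (j - t)).factorial * ((b - (t + 1) + 1) * (b - (t + 1)).factorial) := by ring

theorem weight_le (p b j s t : ℕ) (hjp : j ≤ p) (hst : s ≤ t) (ht : t ≤ j)
    (hb : p + j ≤ b + 1) :
    (p - (j - t)).factorial * (b - t).factorial
      ≤ (p - (j - s)).factorial * (b - s).factorial := by
  induction t, hst using Nat.le_induction with
  | base => exact le_refl _
  | succ t hst ih =>
    exact (weight_anti p b j t hjp ht hb).trans (ih (by omega))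

/-- The key strict inequality. -/
theorem key_ineq (p b j : ℕ) (hj : 1 ≤ j) (hjp : j ≤ p) (hb : 2 ^ (p - 1) + 2 ≤ b) :
    (2 ^ (j - 1) - 1 : ℤ) * (((p - (j - 1)).factorial * (b - 1).factorial : ℕ) : ℤ)
      + 2 ^ (j - 1) * (((p - j + 2).factorial * (b - 2).factorial : ℕ) : ℤ)
      < (((p - j).factorial * b.factorial : ℕ) : ℤ) := by
  have h1p : 1 ≤ 2 ^ (p - 1) := Nat.one_le_two_pow
  obtain ⟨b', rfl⟩ : ∃ b', b = b' + 2 := ⟨b - 2, by omega⟩
  obtain ⟨q, hq⟩ : ∃ q, q = p - j := ⟨_, rfl⟩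
  have e1 : p - (j - 1) = q + 1 := by omega
  have e2 : b' + 2 - 1 = b' + 1 := by omega
  have e3 : b' + 2 - 2 = b' := by omega
  have e4 : p - j = q := hq.symm
  rw [e1, e2, e3, e4, Nat.factorial_succ (q + 1), Nat.factorial_succ q,
    Nat.factorial_succ (b' + 1), Nat.factorial_succ b']
  have hqf : (0 : ℤ) < ((q.factorial : ℕ) : ℤ) := by exact_mod_cast Nat.factorial_pos q
  have hbf : (0 : ℤ) < ((b'.factorial : ℕ) : ℤ) := by exact_mod_cast Nat.factorial_pos b'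
  have hP : (2 : ℤ) ^ (p - 1) = 2 ^ q * 2 ^ (j - 1) := by
    rw [← pow_add]
    congr 1
    omega
  have hq1 : ((q : ℤ) + 1) ≤ 2 ^ q := by
    have : q + 1 ≤ 2 ^ q := Nat.lt_two_pow_self
    exact_mod_cast this
  have hJ : (1 : ℤ) ≤ 2 ^ (j - 1) := one_le_pow₀ (by norm_num)
  have hb1 : (2 : ℤ) ^ (p - 1) ≤ b' := by
    have : 2 ^ (p - 1) ≤ b' := by omega
    exact_mod_cast this
  have hqJ : ((q : ℤ) + 1) * 2 ^ (j - 1) ≤ 2 ^ (p - 1) := by
    rw [hP]
    exact mul_le_mul_of_nonneg_right hq1 (by linarith)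
  have hq0 : (0 : ℤ) ≤ q := by positivity
  have hb0 : (0 : ℤ) ≤ b' := by positivity
  have main : ((2 : ℤ) ^ (j - 1) - 1) * (q + 1) * (b' + 1) + 2 ^ (j - 1) * ((q + 2) * (q + 1))
      < (b' + 2) * (b' + 1) := by
    have h1 : ((2 : ℤ) ^ (j - 1) - 1) * (q + 1) ≤ b' - (q + 1) := by nlinarith
    have h2 : (2 : ℤ) ^ (j - 1) * ((q + 2) * (q + 1)) ≤ b' * (q + 2) := by nlinarith
    nlinarith
  push_cast
  have h4 : (0 : ℤ) < ((q.factorial : ℕ) : ℤ) * ((b'.factorial : ℕ) : ℤ) := mul_pos hqf hbf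
  nlinarith [mul_lt_mul_of_pos_left main h4]

end Pool.Agent.Lib.MP_e7cc07_co
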