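import Pool.Agent.Lib.MP_e7cc07_co.Count

/-!
Iterated differences along lists of pairs.
-/

namespace Pool.Agent.Lib.MP_e7cc07_co

open Finset

variable {α : Type} [DecidableEq α]

/-- Signed halves of the iterated difference. -/
def HH : List (α × α) → Bool → (Finset α → ℤ) → Finset α → ℤ
  | [], s, F, W => if s then F W else 0
  | (x, y) :: L, s, F, W => HH L s F (insert x W) + HH L (!s) F (insert y W)

/-- The iterated difference. -/
def DD (L : List (α × α)) (F : Finset α → ℤ) (W : Finset α) : ℤ :=
  HH L true F W - HH L false F W

theorem DD_nil (F : Finset α → ℤ) (W : Finset α) : DD [] F W = F W := by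
  simp [DD, HH]

theorem DD_cons (x y : α) (L : List (α × α)) (F : Finset α → ℤ) (W : Finset α) :
    DD ((x, y) :: L) F W = DD L F (insert x W) - DD L F (insert y W) := by
  simp only [DD, HH, Bool.not_true, Bool.not_false]
  ring

theorem HH_mono (L : List (α × α)) (F G : Finset α → ℤ) (h : ∀ W, F W ≤ G W) :
    ∀ (s : Bool) (W : Finset α), HH L s F W ≤ HH L s G W := by
  induction L with
  | nil =>
    intro s W
    simp only [HH]
    cases s
    · simp
    · simpa using h W
  | cons q L ih =>
    obtain ⟨x, y⟩ := q
    intro s W
    simp only [HH]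
    exact add_le_add (ih _ _) (ih _ _)

theorem HH_lin (L : List (α × α)) (F : Finset α → ℤ) (a b : ℤ) :
    ∀ (s : Bool) (W : Finset α), HH L s (fun W => a * F W + b) W
      = a * HH L s F W + HH L s (fun _ => b) W := by
  induction L with
  | nil =>
    intro s W
    simp only [HH]
    cases s <;> simp
  | cons q L ih =>
    obtain ⟨x, y⟩ := q
    intro s W
    simp only [HH, ih]
    ring

theorem HH_const (L : List (α × α)) (b : ℤ) (x y : α) :
    ∀ (s : Bool) (W : Finset α), HH ((x, y) :: L) s (fun _ => b) W = 2 ^ L.length * b := by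
  have key : ∀ (L : List (α × α)) (s : Bool) (W V : Finset α),
      HH L s (fun _ => b) W + HH L (!s) (fun _ => b) V = 2 ^ L.length * b := by
    intro L
    induction L with
    | nil => intro s W V; cases s <;> simp [HH]
    | cons q L ih =>
      obtain ⟨x, y⟩ := q
      intro s W V
      simp only [HH, List.length_cons, Bool.not_not]
      have h1 := ih s (insert x W) (insert y W)
      have h2 := ih s (insert y V) (insert x V)
      rw [pow_succ]
      linarith
  intro s W
  simp only [HH]
  exact key L s _ _

theorem HH_nonneg (L : List (α × α)) (F : Finset α → ℤ) (h : ∀ W, 0 ≤ F W) :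
    ∀ (s : Bool) (W : Finset α), 0 ≤ HH L s F W := by
  induction L with
  | nil =>
    intro s W
    simp only [HH]
    cases s
    · simp
    · simpa using h W
  | cons q L ih =>
    obtain ⟨x, y⟩ := q
    intro s W
    simp only [HH]
    exact add_nonneg (ih _ _) (ih _ _)

theorem DD_sum {ι : Type} (S : Finset ι) (L : List (α × α)) (F : ι → Finset α → ℤ) :
    ∀ (W : Finset α), DD L (fun A => ∑ i ∈ S, F i A) W = ∑ i ∈ S, DD L (F i) W := by
  induction L with
  | nil => intro W; simp only [DD_nil]
  | cons q L ih =>
    obtain ⟨x, y⟩ := q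
    intro W
    simp only [DD_cons, ih, Finset.sum_sub_distrib]

theorem DD_smul (a : ℤ) (L : List (α × α)) (F : Finset α → ℤ) :
    ∀ (W : Finset α), DD L (fun A => a * F A) W = a * DD L F W := by
  induction L with
  | nil => intro W; simp only [DD_nil]
  | cons q L ih =>
    obtain ⟨x, y⟩ := q
    intro W
    simp only [DD_cons, ih]
    ring

/-- Values of the iterated difference only depend on the function at sets of the right size. -/
theorem DD_congr (L : List (α × α)) (k : ℕ) (F G : Finset α → ℤ)
    (h : ∀ A : Finset α, A.card = k + L.length → F A = G A) :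
    ∀ (W : Finset α), (flat L).Nodup → W.card = k → (∀ a ∈ flat L, a ∉ W) →
      DD L F W = DD L G W := by
  induction L generalizing k with
  | nil =>
    intro W _ hW _
    rw [DD_nil, DD_nil]
    exact h W (by simpa using hW)
  | cons q L ih =>
    obtain ⟨x, y⟩ := q
    intro W hn hW hd
    simp only [flat, List.nodup_cons, List.mem_cons, not_or] at hn hd
    rw [DD_cons, DD_cons]
    have h' : ∀ A : Finset α, A.card = (k + 1) + L.length → F A = G A := by
      intro A hA
      refine h A ?_
      rw [hA, List.length_cons]
      ring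
    have hx : x ∉ W := hd x (Or.inl rfl)
    have hy : y ∉ W := hd y (Or.inr (Or.inl rfl))
    rw [ih (k + 1) h' (insert x W) hn.2.2 (by rw [Finset.card_insert_of_notMem hx, hW]) ?_,
      ih (k + 1) h' (insert y W) hn.2.2 (by rw [Finset.card_insert_of_notMem hy, hW]) ?_]
    · intro a ha hm
      rw [Finset.mem_insert] at hm
      rcases hm with rfl | hm
      · exact hn.2.1 ha
      · exact hd a (Or.inr (Or.inr ha)) hm
    · intro a ha hm
      rw [Finset.mem_insert] at hm
      rcases hm with rfl | hm
      · exact hn.1.2 ha
      · exact hd a (Or.inr (Or.inr ha)) hm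

theorem eps_insert (L : List (α × α)) (x : α) (A : Finset α) (h : x ∉ flat L) :
    eps L (insert x A) = eps L A := by
  induction L with
  | nil => rfl
  | cons q L ih =>
    obtain ⟨a, b⟩ := q
    simp only [flat, List.mem_cons, not_or] at h
    simp only [eps, ih h.2.2, Finset.mem_insert, Ne.symm h.1, Ne.symm h.2.1, false_or]

theorem DD_insert (L : List (α × α)) (F : Finset α → ℤ) (x : α) :
    ∀ (W : Finset α), DD L (fun A => F (insert x A)) W = DD L F (insert x W) := by
  induction L with
  | nil => intro W; simp only [DD_nil]
  | cons q L ih =>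
    obtain ⟨a, b⟩ := q
    intro W
    rw [DD_cons, DD_cons, ih, ih, Finset.insert_comm, Finset.insert_comm x b]

theorem DD_sub (L : List (α × α)) (F G : Finset α → ℤ) :
    ∀ (W : Finset α), DD L (fun A => F A - G A) W = DD L F W - DD L G W := by
  induction L with
  | nil => intro W; simp only [DD_nil]
  | cons q L ih =>
    obtain ⟨a, b⟩ := q
    intro W
    rw [DD_cons, DD_cons, DD_cons, ih, ih]
    ring

theorem sum_split (S : Finset α) (k : ℕ) (x y : α) (hx : x ∈ S) (hy : y ∈ S) (hxy : x ≠ y)
    (G : Finset α → ℤ) :
    ∑ A ∈ S.powersetCard (k + 1),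
        ((if x ∈ A then 1 else 0) - (if y ∈ A then 1 else 0) : ℤ) * G A
      = ∑ A ∈ ((S.erase x).erase y).powersetCard k, (G (insert x A) - G (insert y A)) := by
  have h1 : ∀ A : Finset α,
      ((if x ∈ A then 1 else 0) - (if y ∈ A then 1 else 0) : ℤ) * G A
        = (if (x ∈ A ∧ y ∉ A) then G A else 0) - (if (y ∈ A ∧ x ∉ A) then G A else 0) := by
    intro A
    by_cases hxA : x ∈ A <;> by_cases hyA : y ∈ A <;> simp [hxA, hyA]
  have h2 : ∀ (u v : α), u ∈ S → v ∈ S → u ≠ v →
      ∑ A ∈ S.powersetCard (k + 1), (if (u ∈ A ∧ v ∉ A) then G A else 0)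
        = ∑ A ∈ ((S.erase u).erase v).powersetCard k, G (insert u A) := by
    intro u v hu hv huv
    rw [← Finset.sum_filter]
    refine Finset.sum_bij' (fun A _ => A.erase u) (fun A _ => insert u A) ?_ ?_ ?_ ?_ ?_
    · intro A hA
      rw [Finset.mem_filter, Finset.mem_powersetCard] at hA
      rw [Finset.mem_powersetCard]
      constructor
      · intro a ha
        rw [Finset.mem_erase] at ha
        rw [Finset.mem_erase, Finset.mem_erase]
        refine ⟨?_, ha.1, hA.1.1 ha.2⟩
        rintro rfl
        exact hA.2.2 ha.2
      · rw [Finset.card_erase_of_mem hA.2.1, hA.1.2]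
        rfl
    · intro A hA
      rw [Finset.mem_powersetCard] at hA
      have hu' : u ∉ A := by
        intro h
        have := hA.1 h
        simp at this
      rw [Finset.mem_filter, Finset.mem_powersetCard]
      refine ⟨⟨?_, ?_⟩, Finset.mem_insert_self _ _, ?_⟩
      · intro a ha
        rw [Finset.mem_insert] at ha
        rcases ha with rfl | ha
        · exact hu
        · exact Finset.mem_of_mem_erase (Finset.mem_of_mem_erase (hA.1 ha))
      · rw [Finset.card_insert_of_notMem hu', hA.2]
      · intro h
        rw [Finset.mem_insert] at h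
        rcases h with h | h
        · exact huv h.symm
        · have := hA.1 h
          simp at this
    · intro A hA
      rw [Finset.mem_filter] at hA
      exact Finset.insert_erase hA.2.1
    · intro A hA
      rw [Finset.mem_powersetCard] at hA
      have hu' : u ∉ A := by
        intro h
        have := hA.1 h
        simp at this
      exact Finset.erase_insert hu'
    · intro A hA
      rw [Finset.mem_filter] at hA
      rw [Finset.insert_erase hA.2.1]
  simp only [h1, Finset.sum_sub_distrib]
  rw [h2 x y hx hy hxy, h2 y x hy hx (Ne.symm hxy), Finset.erase_right_comm]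

theorem sum_eps (L : List (α × α)) (k : ℕ) : ∀ (S : Finset α), (flat L).Nodup →
    (∀ a ∈ flat L, a ∈ S) → ∀ (F : Finset α → ℤ),
    ∑ A ∈ S.powersetCard (k + L.length), eps L A * F A
      = ∑ W ∈ (S \ (flat L).toFinset).powersetCard k, DD L F W := by
  induction L with
  | nil =>
    intro S _ _ F
    simp only [List.length_nil, add_zero, eps, one_mul, flat, List.toFinset_nil,
      Finset.sdiff_empty, DD_nil]
  | cons q L ih =>
    obtain ⟨x, y⟩ := q
    intro S hn hS F
    simp only [flat, List.nodup_cons, List.mem_cons, not_or] at hn hS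
    have hxS : x ∈ S := hS x (Or.inl rfl)
    have hyS : y ∈ S := hS y (Or.inr (Or.inl rfl))
    have e0 : k + ((x, y) :: L).length = (k + L.length) + 1 := by
      rw [List.length_cons]; ring
    rw [e0]
    have e1 : ∀ A : Finset α, eps ((x, y) :: L) A * F A
        = ((if x ∈ A then 1 else 0) - (if y ∈ A then 1 else 0) : ℤ) * (eps L A * F A) := by
      intro A
      simp only [eps]
      ring
    rw [Finset.sum_congr rfl (fun A _ => e1 A), sum_split S (k + L.length) x y hxS hyS hn.1.1]
    have e2 : ∀ A : Finset α, eps L (insert x A) * F (insert x A)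
        - eps L (insert y A) * F (insert y A) = eps L A * (F (insert x A) - F (insert y A)) := by
      intro A
      rw [eps_insert L x A hn.1.2, eps_insert L y A hn.2.1]
      ring
    rw [Finset.sum_congr rfl (fun A _ => e2 A)]
    have hS' : ∀ a ∈ flat L, a ∈ (S.erase x).erase y := by
      intro a ha
      rw [Finset.mem_erase, Finset.mem_erase]
      refine ⟨?_, ?_, hS a (Or.inr (Or.inr ha))⟩
      · rintro rfl
        exact hn.2.1 ha
      · rintro rfl
        exact hn.1.2 ha
    rw [ih ((S.erase x).erase y) hn.2.2 hS' (fun A => F (insert x A) - F (insert y A))]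
    have e3 : (S.erase x).erase y \ (flat L).toFinset = S \ (flat ((x, y) :: L)).toFinset := by
      ext a
      simp only [Finset.mem_sdiff, Finset.mem_erase, flat, List.toFinset_cons, Finset.mem_insert]
      tauto
    rw [e3]
    refine Finset.sum_congr rfl (fun W _ => ?_)
    rw [DD_sub, DD_insert, DD_insert, DD_cons]

/-- A function on `k`-subsets of `S` invariant under exchanges is constant. -/
theorem exchange_const (S : Finset α) (F : Finset α → ℤ) (k : ℕ)
    (h : ∀ (V : Finset α) (x y : α), V ⊆ S → V.card + 1 = k → x ∈ S → y ∈ S → x ∉ V → y ∉ V →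
      x ≠ y → F (insert x V) = F (insert y V)) :
    ∀ (A B : Finset α), A ⊆ S → B ⊆ S → A.card = k → B.card = k → F A = F B := by
  have key : ∀ (m : ℕ) (A B : Finset α), (A \ B).card = m → A ⊆ S → B ⊆ S → A.card = k →
      B.card = k → F A = F B := by
    intro m
    induction m with
    | zero =>
      intro A B h0 _ _ hA hB
      have h1 : A ⊆ B := by
        rw [Finset.card_eq_zero, Finset.sdiff_eq_empty_iff_subset] at h0
        exact h0
      rw [Finset.eq_of_subset_of_card_le h1 (by rw [hA, hB])]
    | succ m ih =>
      intro A B hm hAS hBS hA hB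
      have h1 : (A \ B).Nonempty := by
        rw [← Finset.card_pos, hm]; omega
      obtain ⟨x, hx⟩ := h1
      have h2 : (B \ A).card = (A \ B).card := Finset.card_sdiff_comm (by rw [hA, hB])
      have h3 : (B \ A).Nonempty := by
        rw [← Finset.card_pos, h2, hm]; omega
      obtain ⟨y, hy⟩ := h3
      rw [Finset.mem_sdiff] at hx hy
      have e1 : insert x (A.erase x) = A := Finset.insert_erase hx.1
      have hyx : y ∉ A.erase x := fun h => hy.2 (Finset.mem_of_mem_erase h)
      have hxy : x ≠ y := by
        rintro rfl
        exact hy.2 hx.1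
      have e2 : F A = F (insert y (A.erase x)) := by
        conv_lhs => rw [← e1]
        refine h (A.erase x) x y ((Finset.erase_subset _ _).trans hAS) ?_ (hAS hx.1) (hBS hy.1)
          (Finset.notMem_erase _ _) hyx hxy
        rw [Finset.card_erase_of_mem hx.1, hA]
        have : 0 < A.card := Finset.card_pos.2 ⟨x, hx.1⟩
        omega
      rw [e2]
      refine ih (insert y (A.erase x)) B ?_ ?_ hBS ?_ hB
      · have e3 : insert y (A.erase x) \ B = (A \ B).erase x := by
          ext a
          simp only [Finset.mem_sdiff, Finset.mem_insert, Finset.mem_erase]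
          constructor
          · rintro ⟨rfl | h4, h5⟩
            · exact absurd hy.1 h5
            · exact ⟨h4.1, h4.2, h5⟩
          · rintro ⟨h4, h5, h6⟩
            exact ⟨Or.inr ⟨h4, h5⟩, h6⟩
        rw [e3, Finset.card_erase_of_mem (Finset.mem_sdiff.2 hx), hm]
        rfl
      · intro a ha
        rw [Finset.mem_insert] at ha
        rcases ha with rfl | ha
        · exact hBS hy.1
        · exact hAS (Finset.mem_of_mem_erase ha)
      · rw [Finset.card_insert_of_notMem hyx, Finset.card_erase_of_mem hx.1, hA]
        have : 0 < A.card := Finset.card_pos.2 ⟨x, hx.1⟩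
        omega
  intro A B hAS hBS hA hB
  exact key _ A B rfl hAS hBS hA hB

end Pool.Agent.Lib.MP_e7cc07_co
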