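import Pool.Agent.Lib.MP_e7cc07_co.Moment
import Pool.Agent.Lib.MP_e7cc07_co.Diff
import Pool.Agent.Lib.MP_e7cc07_co.Arith

/-!
Exact maps are constant when the complement is large.
-/

namespace Pool.Agent.Lib.MP_e7cc07_co

open Finset Equiv

variable {α : Type} [Fintype α] [DecidableEq α]

/-- Indicator of `U ⊆ c A`. -/
def phi (c : Finset α → Finset α) (U A : Finset α) : ℤ := if U ⊆ c A then 1 else 0

/-- The induction statement. -/
def PP (p : ℕ) (c : Finset α → Finset α) (j : ℕ) : Prop :=
  ∀ L : List (α × α), (flat L).Nodup → L.length = j → ∀ W : Finset α, W.card + j = p →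
    (∀ a ∈ flat L, a ∉ W) → ∀ U : Finset α, U.card ≤ j → DD L (phi c U) W = 0

omit [Fintype α] in
theorem moebius (c : Finset α → Finset α) (j : ℕ) (L : List (α × α)) (W : Finset α)
    (h : ∀ U : Finset α, U.card ≤ j → DD L (phi c U) W = 0) :
    ∀ (m : ℕ) (U V : Finset α), (U \ V).card = m → V ⊆ U → U.card ≤ j →
      DD L (fun A => if c A ∩ U = V then 1 else 0) W = 0 := by
  intro m
  induction m with
  | zero =>
    intro U V hm hVU hU
    rw [Finset.card_eq_zero, Finset.sdiff_eq_empty_iff_subset] at hm
    have hUV : U = V := Finset.Subset.antisymm hm hVU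
    subst hUV
    have e : (fun A => if c A ∩ U = U then (1 : ℤ) else 0) = phi c U := by
      funext A
      simp only [phi, Finset.inter_eq_right]
    rw [e]
    exact h U hU
  | succ m ih =>
    intro U V hm hVU hU
    have hne : (U \ V).Nonempty := by
      rw [← Finset.card_pos, hm]; omega
    obtain ⟨u, hu⟩ := hne
    have hu' := Finset.mem_sdiff.1 hu
    have e : (fun A => if c A ∩ U = V then (1 : ℤ) else 0)
        = (fun A => (if c A ∩ (U.erase u) = V then (1 : ℤ) else 0)
          - (if c A ∩ U = insert u V then (1 : ℤ) else 0)) := by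
      funext A
      by_cases huA : u ∈ c A
      · have h1 : ¬ (c A ∩ U = V) := by
          intro h1
          apply hu'.2
          rw [← h1]
          exact Finset.mem_inter.2 ⟨huA, hu'.1⟩
        have h2 : (c A ∩ (U.erase u) = V) ↔ (c A ∩ U = insert u V) := by
          constructor
          · intro h3
            rw [← h3, ← Finset.inter_insert_of_mem huA, Finset.insert_erase hu'.1]
          · intro h3
            have : c A ∩ (U.erase u) = (c A ∩ U).erase u := by
              rw [Finset.inter_erase]
            rw [this, h3, Finset.erase_insert hu'.2]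
        simp only [h1, if_false, h2, sub_self]
      · have h1 : ¬ (c A ∩ U = insert u V) := by
          intro h1
          have : u ∈ c A ∩ U := by rw [h1]; exact Finset.mem_insert_self _ _
          exact huA (Finset.mem_inter.1 this).1
        have h2 : c A ∩ (U.erase u) = c A ∩ U := by
          ext a
          simp only [Finset.mem_inter, Finset.mem_erase]
          constructor
          · rintro ⟨h3, h4, h5⟩; exact ⟨h3, h5⟩
          · rintro ⟨h3, h4⟩
            refine ⟨h3, ?_, h4⟩
            rintro rfl
            exact huA h3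
        simp only [h1, h2, if_false, sub_zero]
    rw [e, DD_sub]
    have i1 := ih (U.erase u) V (by
      have : U.erase u \ V = (U \ V).erase u := by
        ext a
        simp only [Finset.mem_sdiff, Finset.mem_erase]
        tauto
      rw [this, Finset.card_erase_of_mem hu, hm]
      rfl) (by
      intro a ha
      rw [Finset.mem_erase]
      refine ⟨?_, hVU ha⟩
      rintro rfl
      exact hu'.2 ha) ((Finset.card_erase_le).trans hU)
    have i2 := ih U (insert u V) (by
      rw [Finset.sdiff_insert, Finset.card_erase_of_mem hu, hm]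
      rfl) (by
      intro a ha
      rw [Finset.mem_insert] at ha
      rcases ha with rfl | ha
      · exact hu'.1
      · exact hVU ha) hU
    rw [i1, i2, sub_zero]

omit [Fintype α] in
theorem any_function (c : Finset α → Finset α) (j : ℕ) (L : List (α × α)) (W : Finset α)
    (h : ∀ U : Finset α, U.card ≤ j → DD L (phi c U) W = 0) (U : Finset α) (hU : U.card ≤ j)
    (f : Finset α → ℤ) : DD L (fun A => f (c A ∩ U)) W = 0 := by
  have e : (fun A => f (c A ∩ U))
      = (fun A => ∑ V ∈ U.powerset, f V * (if c A ∩ U = V then 1 else 0)) := by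
    funext A
    simp only [mul_ite, mul_one, mul_zero]
    rw [Finset.sum_ite_eq]
    rw [if_pos]
    rw [Finset.mem_powerset]
    exact Finset.inter_subset_right
  rw [e, DD_sum U.powerset L (fun V A => f V * (if c A ∩ U = V then 1 else 0))]
  refine Finset.sum_eq_zero (fun V hV => ?_)
  rw [DD_smul (f V) L (fun A => (if c A ∩ U = V then 1 else 0))]
  rw [moebius c j L W h _ U V rfl (Finset.mem_powerset.1 hV) hU, mul_zero]

omit [Fintype α] in
theorem tt_eq (T : List ((α × α) × α)) (C : Finset α) (h : (T.map Prod.snd).Nodup) :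
    tt T C = ((T.map Prod.snd).toFinset \ C).card := by
  induction T with
  | nil => simp [tt]
  | cons q T ih =>
    obtain ⟨⟨x, y⟩, u⟩ := q
    simp only [List.map_cons, List.nodup_cons] at h
    simp only [tt, List.map_cons, List.toFinset_cons]
    rw [ih h.2]
    have hu : u ∉ (T.map Prod.snd).toFinset := by
      rw [List.mem_toFinset]; exact h.1
    split_ifs with h1
    · rw [Finset.insert_sdiff_of_mem _ h1]
      rfl
    · rw [Finset.insert_sdiff_of_notMem _ h1, Finset.card_insert_of_notMem]
      rw [Finset.mem_sdiff]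
      exact fun h2 => hu h2.1

/-- The zonal function has vanishing iterated differences. -/
theorem zonal_zero (p : ℕ) (c : Finset α → Finset α) (hc : Exact p c) (j : ℕ) (hj : 1 ≤ j)
    (hjp : j ≤ p) (hP : j = p ∨ PP p c (j + 1)) (L : List (α × α)) (hL : (flat L).Nodup)
    (hLj : L.length = j) (W : Finset α) (hW : W.card + j = p) (hd : ∀ a ∈ flat L, a ∉ W)
    (U : Finset α) (hU : U.card = j) :
    DD L (fun A => gw (Fintype.card α) p j ((U \ c A).card)) W = 0 := by
  obtain ⟨T, hT1, hT2⟩ : ∃ T : List ((α × α) × α), T.map Prod.fst = L ∧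
      T.map Prod.snd = U.toList := by
    refine ⟨L.zip U.toList, ?_, ?_⟩
    · rw [List.map_fst_zip]
      rw [Finset.length_toList, hU, hLj]
    · rw [List.map_snd_zip]
      rw [Finset.length_toList, hU, hLj]
  have hTlen : T.length = j := by
    rw [← hLj, ← hT1, List.length_map]
  have hTne : T ≠ [] := by
    rintro rfl
    simp at hTlen
    omega
  have hm := moment p c hc T hTne (by rw [hT1]; exact hL)
    (by rw [hT2]; exact Finset.nodup_toList U)
  have htt : ∀ C, tt T C = (U \ C).card := by
    intro C
    rw [tt_eq T C (by rw [hT2]; exact Finset.nodup_toList U), hT2, Finset.toList_toFinset]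
  simp only [htt, hT1, hTlen] at hm
  have hpj : p = W.card + L.length := by rw [hLj, hW]
  have hs := sum_eps L W.card univ hL (fun a _ => Finset.mem_univ a)
    (fun A => gw (Fintype.card α) p j ((U \ c A).card))
  rw [← hpj, hm] at hs
  have hWmem : W ∈ ((univ : Finset α) \ (flat L).toFinset).powersetCard W.card := by
    rw [Finset.mem_powersetCard]
    refine ⟨?_, rfl⟩
    intro a ha
    rw [Finset.mem_sdiff, List.mem_toFinset]
    exact ⟨Finset.mem_univ a, fun h => hd a h ha⟩
  have hconst : ∀ W' ∈ ((univ : Finset α) \ (flat L).toFinset).powersetCard W.card,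
      DD L (fun A => gw (Fintype.card α) p j ((U \ c A).card)) W'
        = DD L (fun A => gw (Fintype.card α) p j ((U \ c A).card)) W := by
    intro W' hW'
    rw [Finset.mem_powersetCard] at hW' hWmem
    refine exchange_const ((univ : Finset α) \ (flat L).toFinset)
      (DD L (fun A => gw (Fintype.card α) p j ((U \ c A).card))) W.card ?_ W' W hW'.1 hWmem.1
      hW'.2 rfl
    intro V x y hVS hVc hxS hyS hxV hyV hxy
    have hjp' : j ≠ p := by
      intro h
      omega
    have hP' := hP.resolve_left hjp'
    rw [Finset.mem_sdiff, List.mem_toFinset] at hxS hyS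
    have hnd : (flat ((x, y) :: L)).Nodup := by
      simp only [flat, List.nodup_cons, List.mem_cons, not_or]
      exact ⟨⟨hxy, hxS.2⟩, hyS.2, hL⟩
    have hdis : ∀ a ∈ flat ((x, y) :: L), a ∉ V := by
      intro a ha
      simp only [flat, List.mem_cons] at ha
      rcases ha with rfl | rfl | ha
      · exact hxV
      · exact hyV
      · intro haV
        have := hVS haV
        rw [Finset.mem_sdiff, List.mem_toFinset] at this
        exact this.2 ha
    have hq : ∀ U' : Finset α, U'.card ≤ j + 1 → DD ((x, y) :: L) (phi c U') V = 0 := by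
      intro U' hU'
      exact hP' ((x, y) :: L) hnd (by rw [List.length_cons, hLj]) V (by omega) hdis U' hU'
    have hz := any_function c (j + 1) ((x, y) :: L) V hq U (by omega)
      (fun V' => gw (Fintype.card α) p j ((U \ V').card))
    have e : (fun A => gw (Fintype.card α) p j ((U \ (c A ∩ U)).card))
        = (fun A => gw (Fintype.card α) p j ((U \ c A).card)) := by
      funext A
      congr 2
      ext a
      simp only [Finset.mem_sdiff, Finset.mem_inter]
      tauto
    rw [e, DD_cons] at hz
    linarith
  rw [Finset.sum_congr rfl hconst, Finset.sum_const, nsmul_eq_mul] at hs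
  have hpos : 0 < (((univ : Finset α) \ (flat L).toFinset).powersetCard W.card).card :=
    Finset.card_pos.2 ⟨W, hWmem⟩
  have h0 := hs.symm
  rcases mul_eq_zero.1 h0 with h1 | h1
  · exfalso
    have : (((univ : Finset α) \ (flat L).toFinset).powersetCard W.card).card = 0 := by
      exact_mod_cast h1
    omega
  · exact h1

/-- The case `|U| = j` of the induction step. -/
theorem top_zero (p : ℕ) (c : Finset α → Finset α) (j : ℕ) (hj : 1 ≤ j)
    (hjp : j ≤ p) (hb : 2 ^ (p - 1) + 2 ≤ Fintype.card α - p)
    (L : List (α × α)) (hLj : L.length = j) (W : Finset α)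
    (U : Finset α) (hU : U.card = j)
    (hz : DD L (fun A => gw (Fintype.card α) p j ((U \ c A).card)) W = 0) :
    DD L (phi c U) W = 0 := by
  obtain ⟨b, hbdef⟩ : ∃ b, b = Fintype.card α - p := ⟨_, rfl⟩
  rw [← hbdef] at hb
  have h2p := two_pow_ge' p (by omega)
  have hcond : p + j ≤ b + 1 := by omega
  obtain ⟨w0, hw0⟩ : ∃ w0 : ℤ, w0 = (((p - j).factorial * b.factorial : ℕ) : ℤ) := ⟨_, rfl⟩
  obtain ⟨w1, hw1⟩ : ∃ w1 : ℤ, w1 = (((p - (j - 1)).factorial * (b - 1).factorial : ℕ) : ℤ) :=
    ⟨_, rfl⟩
  obtain ⟨w2, hw2⟩ : ∃ w2 : ℤ, w2 = (((p - j + 2).factorial * (b - 2).factorial : ℕ) : ℤ) :=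
    ⟨_, rfl⟩
  have hkey := key_ineq p b j hj hjp hb
  rw [← hw0, ← hw1, ← hw2] at hkey
  have hw1n : 0 ≤ w1 := by rw [hw1]; positivity
  have hw2n : 0 ≤ w2 := by rw [hw2]; positivity
  have hw0n : 0 ≤ w0 := by rw [hw0]; positivity
  have hgw : ∀ t, gw (Fintype.card α) p j t
      = (-1) ^ t * (((p - (j - t)).factorial * (b - t).factorial : ℕ) : ℤ) := by
    intro t
    rw [gw, hbdef]
    push_cast
    ring
  have hg0 : gw (Fintype.card α) p j 0 = w0 := by
    rw [hgw, hw0]
    simp
  have hglow : ∀ t, 1 ≤ t → t ≤ j → -w1 ≤ gw (Fintype.card α) p j t := by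
    intro t h1 h2
    rw [hgw]
    have h3 := weight_le p b j 1 t hjp h1 h2 hcond
    have h4 : (((p - (j - t)).factorial * (b - t).factorial : ℕ) : ℤ) ≤ w1 := by
      rw [hw1]; exact_mod_cast h3
    have h5 : (0 : ℤ) ≤ (((p - (j - t)).factorial * (b - t).factorial : ℕ) : ℤ) := by positivity
    rcases neg_one_pow_eq_or ℤ t with h6 | h6
    · rw [h6, one_mul]; linarith
    · rw [h6]; linarith
  have hghigh : ∀ t, 1 ≤ t → t ≤ j → gw (Fintype.card α) p j t ≤ w2 := by
    intro t h1 h2
    rw [hgw]
    rcases Nat.lt_or_ge t 2 with h3 | h3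
    · have : t = 1 := by omega
      subst this
      have h5 : (0 : ℤ) ≤ (((p - (j - 1)).factorial * (b - 1).factorial : ℕ) : ℤ) := by positivity
      rw [pow_one]
      linarith
    · have h3' := weight_le p b j 2 t hjp h3 h2 hcond
      have e : p - (j - 2) = p - j + 2 := by omega
      rw [e] at h3'
      have h4 : (((p - (j - t)).factorial * (b - t).factorial : ℕ) : ℤ) ≤ w2 := by
        rw [hw2]; exact_mod_cast h3'
      have h5 : (0 : ℤ) ≤ (((p - (j - t)).factorial * (b - t).factorial : ℕ) : ℤ) := by positivity
      rcases neg_one_pow_eq_or ℤ t with h6 | h6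
      · rw [h6, one_mul]; linarith
      · rw [h6]; linarith
  have hlow : ∀ A : Finset α, (w0 + w1) * phi c U A + (-w1)
      ≤ gw (Fintype.card α) p j ((U \ c A).card) := by
    intro A
    unfold phi
    split_ifs with h
    · rw [Finset.sdiff_eq_empty_iff_subset.2 h, Finset.card_empty, hg0]
      linarith
    · have h1 : 1 ≤ (U \ c A).card := by
        rw [Nat.one_le_iff_ne_zero, Ne, Finset.card_eq_zero, Finset.sdiff_eq_empty_iff_subset]
        exact h
      have h2 : (U \ c A).card ≤ j := by
        rw [← hU]; exact Finset.card_le_card Finset.sdiff_subset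
      have := hglow _ h1 h2
      linarith
  have hhigh : ∀ A : Finset α, gw (Fintype.card α) p j ((U \ c A).card)
      ≤ (w0 - w2) * phi c U A + w2 := by
    intro A
    unfold phi
    split_ifs with h
    · rw [Finset.sdiff_eq_empty_iff_subset.2 h, Finset.card_empty, hg0]
      linarith
    · have h1 : 1 ≤ (U \ c A).card := by
        rw [Nat.one_le_iff_ne_zero, Ne, Finset.card_eq_zero, Finset.sdiff_eq_empty_iff_subset]
        exact h
      have h2 : (U \ c A).card ≤ j := by
        rw [← hU]; exact Finset.card_le_card Finset.sdiff_subset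
      have := hghigh _ h1 h2
      linarith
  have hphi : ∀ A : Finset α, 0 ≤ phi c U A := by
    intro A
    unfold phi
    split_ifs <;> norm_num
  obtain ⟨q, L', rfl⟩ : ∃ q L', L = q :: L' := by
    cases L with
    | nil => simp at hLj; omega
    | cons q L' => exact ⟨q, L', rfl⟩
  obtain ⟨x, y⟩ := q
  have hL' : L'.length = j - 1 := by
    rw [List.length_cons] at hLj
    omega
  have k1 : ∀ s, (w0 + w1) * HH ((x, y) :: L') s (phi c U) W + 2 ^ (j - 1) * (-w1)
      ≤ HH ((x, y) :: L') s (fun A => gw (Fintype.card α) p j ((U \ c A).card)) W := by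
    intro s
    have := HH_mono ((x, y) :: L') _ _ hlow s W
    rw [HH_lin, HH_const, hL'] at this
    exact this
  have k2 : ∀ s, HH ((x, y) :: L') s (fun A => gw (Fintype.card α) p j ((U \ c A).card)) W
      ≤ (w0 - w2) * HH ((x, y) :: L') s (phi c U) W + 2 ^ (j - 1) * w2 := by
    intro s
    have := HH_mono ((x, y) :: L') _ _ hhigh s W
    rw [HH_lin, HH_const, hL'] at this
    exact this
  have n1 := HH_nonneg ((x, y) :: L') _ hphi true W
  have n2 := HH_nonneg ((x, y) :: L') _ hphi false W
  have a1 := k1 true
  have a2 := k1 false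
  have a3 := k2 true
  have a4 := k2 false
  rw [DD] at hz ⊢
  generalize HH ((x, y) :: L') true (phi c U) W = N1 at *
  generalize HH ((x, y) :: L') false (phi c U) W = N2 at *
  generalize HH ((x, y) :: L') true
    (fun A => gw (Fintype.card α) p j ((U \ c A).card)) W = G1 at *
  generalize HH ((x, y) :: L') false
    (fun A => gw (Fintype.card α) p j ((U \ c A).card)) W = G2 at *
  by_contra hne
  rcases lt_or_gt_of_ne hne with hlt | hgt
  · have h1 : N1 + 1 ≤ N2 := by linarith
    have h2 : (w0 + w1) * (N1 + 1) ≤ (w0 + w1) * N2 :=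
      mul_le_mul_of_nonneg_left h1 (by linarith)
    have h3 : 0 ≤ (w1 + w2) * N1 := mul_nonneg (by linarith) n1
    nlinarith
  · have h1 : N2 + 1 ≤ N1 := by linarith
    have h2 : (w0 + w1) * (N2 + 1) ≤ (w0 + w1) * N1 :=
      mul_le_mul_of_nonneg_left h1 (by linarith)
    have h3 : 0 ≤ (w1 + w2) * N2 := mul_nonneg (by linarith) n2
    nlinarith

/-- Passing from `|U| = j` to all smaller sets. -/
theorem down_zero (p : ℕ) (c : Finset α → Finset α) (hc : Exact p c) (j : ℕ)
    (hjp : j ≤ p) (L : List (α × α)) (hL : (flat L).Nodup)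
    (hLj : L.length = j) (W : Finset α) (hW : W.card + j = p) (hd : ∀ a ∈ flat L, a ∉ W)
    (h : ∀ U : Finset α, U.card = j → DD L (phi c U) W = 0) :
    ∀ (m : ℕ) (U : Finset α), U.card + m = j → DD L (phi c U) W = 0 := by
  intro m
  induction m with
  | zero =>
    intro U hU
    exact h U (by simpa using hU)
  | succ m ih =>
    intro U hU
    have e : DD L (fun A => ((p - U.card : ℕ) : ℤ) * phi c U A) W
        = DD L (fun A => ∑ t ∈ Uᶜ, phi c (insert t U) A) W := by
      refine DD_congr L W.card _ _ ?_ W hL rfl hd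
      intro A hA
      have hcA : (c A).card = p := hc.1 A (by rw [hA, hLj, hW])
      unfold phi
      by_cases hUA : U ⊆ c A
      · rw [if_pos hUA, mul_one, Finset.sum_boole]
        have e1 : Uᶜ.filter (fun t => insert t U ⊆ c A) = c A \ U := by
          ext t
          simp only [Finset.mem_filter, Finset.mem_compl, Finset.mem_sdiff,
            Finset.insert_subset_iff]
          tauto
        rw [e1, Finset.card_sdiff_of_subset hUA, hcA]
      · rw [if_neg hUA, mul_zero]
        symm
        refine Finset.sum_eq_zero (fun t _ => ?_)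
        rw [if_neg]
        intro h'
        exact hUA ((Finset.subset_insert t U).trans h')
    rw [DD_smul, DD_sum] at e
    have e2 : ∑ t ∈ Uᶜ, DD L (phi c (insert t U)) W = 0 := by
      refine Finset.sum_eq_zero (fun t ht => ?_)
      refine ih (insert t U) ?_
      rw [Finset.card_insert_of_notMem (Finset.mem_compl.1 ht)]
      omega
    rw [e2] at e
    rcases mul_eq_zero.1 e with h1 | h1
    · exfalso
      have : p - U.card = 0 := by exact_mod_cast h1
      omega
    · exact h1

theorem step (p : ℕ) (c : Finset α → Finset α) (hc : Exact p c) (j : ℕ) (hj : 1 ≤ j)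
    (hjp : j ≤ p) (hb : 2 ^ (p - 1) + 2 ≤ Fintype.card α - p) (hP : j = p ∨ PP p c (j + 1)) :
    PP p c j := by
  intro L hL hLj W hW hd U hU
  refine down_zero p c hc j hjp L hL hLj W hW hd ?_ (j - U.card) U (by omega)
  intro U' hU'
  exact top_zero p c j hj hjp hb L hLj W U' hU'
    (zonal_zero p c hc j hj hjp hP L hL hLj W hW hd U' hU')

theorem PP_all (p : ℕ) (c : Finset α → Finset α) (hc : Exact p c)
    (hb : 2 ^ (p - 1) + 2 ≤ Fintype.card α - p) :
    ∀ (m j : ℕ), 1 ≤ j → j + m = p → PP p c j := by
  intro m
  induction m with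
  | zero =>
    intro j hj hjp
    exact step p c hc j hj (by omega) hb (Or.inl (by omega))
  | succ m ih =>
    intro j hj hjp
    exact step p c hc j hj (by omega) hb (Or.inr (ih (j + 1) (by omega) (by omega)))

/-- Exact maps are constant when the complement is large. -/
theorem exact_const_large (p : ℕ) (hp : 1 ≤ p) (c : Finset α → Finset α) (hc : Exact p c)
    (hb : 2 ^ (p - 1) + 2 ≤ Fintype.card α - p) (A B : Finset α) (hA : A.card = p)
    (hB : B.card = p) : c A = c B := by
  have h1 : PP p c 1 := PP_all p c hc hb (p - 1) 1 (le_refl _) (by omega)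
  have h2 : ∀ u : α, phi c {u} A = phi c {u} B := by
    intro u
    refine exchange_const univ (phi c {u}) p ?_ A B (Finset.subset_univ _)
      (Finset.subset_univ _) hA hB
    intro V x y _ hV _ _ hx hy hxy
    have := h1 [(x, y)] (by simp [flat, hxy]) rfl V hV (by
      intro a ha
      simp only [flat, List.mem_cons, List.not_mem_nil, or_false] at ha
      rcases ha with rfl | rfl
      · exact hx
      · exact hy) {u} (by simp)
    rw [DD_cons, DD_nil, DD_nil] at this
    linarith
  ext u
  have := h2 u
  unfold phi at this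
  simp only [Finset.singleton_subset_iff] at this
  constructor
  · intro h
    by_contra h'
    simp [h, h'] at this
  · intro h
    by_contra h'
    simp [h, h'] at this

end Pool.Agent.Lib.MP_e7cc07_co
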