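import Mathlib

/-!
Counting permutations with prescribed values that carry one finite set to another.
-/

namespace Pool.Agent.Lib.MP_e7cc07_co

open Finset Equiv

variable {α : Type} [Fintype α] [DecidableEq α]

/-- The number of permutations intertwining two functions with equal fibre sizes. -/
theorem card_intertwine {ι : Type} [Fintype ι] [DecidableEq ι] (f g : α → ι)
    (h : ∀ i, (univ.filter (fun a => f a = i)).card = (univ.filter (fun a => g a = i)).card) :
    (univ.filter (fun σ : Perm α => ∀ a, g (σ a) = f a)).card
      = ∏ i, ((univ.filter (fun a => f a = i)).card).factorial := by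
  classical
  have e : ∀ i, {a // f a = i} ≃ {a // g a = i} := by
    intro i
    refine Fintype.equivOfCardEq ?_
    rw [Fintype.card_subtype, Fintype.card_subtype]
    exact h i
  obtain ⟨τ, hτ⟩ : ∃ τ : Perm α, ∀ a, g (τ a) = f a :=
    ⟨Equiv.ofFiberEquiv e, fun a => Equiv.ofFiberEquiv_map e a⟩
  have h1 : (univ.filter (fun σ : Perm α => ∀ a, g (σ a) = f a)).card
      = (univ.filter (fun σ : Perm α => f ∘ σ = f)).card := by
    refine Finset.card_bij' (fun σ _ => τ⁻¹ * σ) (fun σ _ => τ * σ) ?_ ?_ ?_ ?_
    · intro σ hσ
      simp only [mem_filter, mem_univ, true_and] at hσ ⊢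
      funext a
      simp only [Function.comp, Perm.mul_apply]
      rw [← hτ]
      simp [hσ]
    · intro σ hσ
      simp only [mem_filter, mem_univ, true_and] at hσ ⊢
      intro a
      have := congrFun hσ a
      simp only [Function.comp] at this
      simp [Perm.mul_apply, hτ, this]
    · intro σ _
      simp
    · intro σ _
      simp
  rw [h1]
  have h2 := DomMulAct.stabilizer_card f
  rw [Fintype.card_subtype] at h2
  rw [h2]
  refine Finset.prod_congr rfl (fun i _ => ?_)
  rw [Fintype.card_subtype]

/-- Code of points on the domain side. -/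
def cz : List (α × α) → Finset α → α → α ⊕ Bool
  | [], A, a => Sum.inr (decide (a ∈ A))
  | (z, _) :: F, A, a => if a = z then Sum.inl z else cz F A a

/-- Code of points on the target side. -/
def cu : List (α × α) → Finset α → α → α ⊕ Bool
  | [], C, a => Sum.inr (decide (a ∈ C))
  | (z, u) :: F, C, a => if a = u then Sum.inl z else cu F C a

omit [Fintype α] in
theorem cz_not_mem (F : List (α × α)) (A : Finset α) (a : α) (h : a ∉ F.map Prod.fst) :
    cz F A a = Sum.inr (decide (a ∈ A)) := by
  induction F with
  | nil => rfl
  | cons q F ih =>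
    obtain ⟨z, u⟩ := q
    simp only [List.map_cons, List.mem_cons, not_or] at h
    simp only [cz, if_neg h.1]
    exact ih h.2

omit [Fintype α] in
theorem cu_not_mem (F : List (α × α)) (A : Finset α) (a : α) (h : a ∉ F.map Prod.snd) :
    cu F A a = Sum.inr (decide (a ∈ A)) := by
  induction F with
  | nil => rfl
  | cons q F ih =>
    obtain ⟨z, u⟩ := q
    simp only [List.map_cons, List.mem_cons, not_or] at h
    simp only [cu, if_neg h.1]
    exact ih h.2

omit [Fintype α] in
theorem cz_ne_inl (F : List (α × α)) (A : Finset α) (a z : α) (h : z ∉ F.map Prod.fst) :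
    cz F A a ≠ Sum.inl z := by
  induction F with
  | nil => simp [cz]
  | cons q F ih =>
    obtain ⟨z', u⟩ := q
    simp only [List.map_cons, List.mem_cons, not_or] at h
    simp only [cz]
    split_ifs with h1
    · intro h2
      exact h.1 (Sum.inl.inj h2).symm
    · exact ih h.2

omit [Fintype α] in
theorem cu_ne_inl (F : List (α × α)) (A : Finset α) (a z : α) (h : z ∉ F.map Prod.fst) :
    cu F A a ≠ Sum.inl z := by
  induction F with
  | nil => simp [cu]
  | cons q F ih =>
    obtain ⟨z', u⟩ := q
    simp only [List.map_cons, List.mem_cons, not_or] at h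
    simp only [cu]
    split_ifs with h1
    · intro h2
      exact h.1 (Sum.inl.inj h2).symm
    · exact ih h.2

/-- A list of prescribed values is consistent with the pair of sets. -/
def Cons (F : List (α × α)) (A C : Finset α) : Prop :=
  ∀ q ∈ F, (q.1 ∈ A ↔ q.2 ∈ C)

theorem fiber_insert {ι : Type} [DecidableEq ι] (f g : α → ι) (z : α) (i₀ i : ι)
    (hg : ∀ a, g a = if a = z then i₀ else f a)
    (hf : ∀ a, f a ≠ i₀) :
    (univ.filter (fun a => g a = i)).card
      = if i = i₀ then 1 else
          (univ.filter (fun a => f a = i)).card - (if f z = i then 1 else 0) := by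
  split_ifs with h1 h2
  · rw [Finset.card_eq_one]
    refine ⟨z, ?_⟩
    ext a
    simp only [mem_filter, mem_univ, true_and, mem_singleton, hg]
    constructor
    · intro h
      by_contra h3
      rw [if_neg h3] at h
      exact hf a (h.trans h1)
    · intro h
      rw [if_pos h, h1]
  · have : univ.filter (fun a => g a = i)
        = (univ.filter (fun a => f a = i)).erase z := by
      ext a
      simp only [mem_filter, mem_univ, true_and, mem_erase, hg]
      constructor
      · intro h
        by_cases h3 : a = z
        · rw [if_pos h3] at h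
          exact absurd h.symm h1
        · rw [if_neg h3] at h
          exact ⟨h3, h⟩
      · rintro ⟨h3, h⟩
        rw [if_neg h3, h]
    rw [this, Finset.card_erase_of_mem]
    simp [h2]
  · have : univ.filter (fun a => g a = i)
        = (univ.filter (fun a => f a = i)) := by
      ext a
      simp only [mem_filter, mem_univ, true_and, hg]
      constructor
      · intro h
        by_cases h3 : a = z
        · rw [if_pos h3] at h
          exact absurd h.symm h1
        · rw [if_neg h3] at h
          exact h
      · intro h
        have h3 : a ≠ z := by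
          rintro rfl
          exact h2 h
        rw [if_neg h3, h]
    rw [this]
    simp

theorem fibers_eq (F : List (α × α)) (A C : Finset α) (hAC : A.card = C.card)
    (h1 : (F.map Prod.fst).Nodup) (h2 : (F.map Prod.snd).Nodup) (hc : Cons F A C)
    (i : α ⊕ Bool) :
    (univ.filter (fun a => cz F A a = i)).card = (univ.filter (fun a => cu F C a = i)).card := by
  induction F with
  | nil =>
    simp only [cz, cu]
    rcases i with z | b
    · simp
    · cases b
      · simp only [Sum.inr.injEq, decide_eq_false_iff_not]
        have e1 : (univ.filter (fun a => a ∉ A)) = univ \ A := by ext a; simp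
        have e2 : (univ.filter (fun a => a ∉ C)) = univ \ C := by ext a; simp
        rw [e1, e2, Finset.card_sdiff_of_subset (subset_univ _),
          Finset.card_sdiff_of_subset (subset_univ _), hAC]
      · simp only [Sum.inr.injEq, decide_eq_true_eq]
        have e1 : (univ.filter (fun a => a ∈ A)) = A := by ext a; simp
        have e2 : (univ.filter (fun a => a ∈ C)) = C := by ext a; simp
        rw [e1, e2, hAC]
  | cons q F ih =>
    obtain ⟨z, u⟩ := q
    simp only [List.map_cons, List.nodup_cons] at h1 h2
    have hc' : Cons F A C := fun q hq => hc q (List.mem_cons_of_mem _ hq)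
    have hzu : (z ∈ A ↔ u ∈ C) := hc (z, u) (by simp)
    have ih' := ih h1.2 h2.2 hc'
    rw [fiber_insert (cz F A) (cz ((z, u) :: F) A) z (Sum.inl z) i (fun a => rfl)
        (fun a => cz_ne_inl F A a z h1.1),
      fiber_insert (cu F C) (cu ((z, u) :: F) C) u (Sum.inl z) i (fun a => rfl)
        (fun a => cu_ne_inl F C a z h1.1), ih',
      cz_not_mem F A z h1.1, cu_not_mem F C u h2.1]
    have : (decide (z ∈ A)) = (decide (u ∈ C)) := by
      by_cases h : z ∈ A
      · simp [h, hzu.1 h]
      · have h' : u ∉ C := fun h' => h (hzu.2 h')
        simp [h, h']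
    rw [this]

theorem intertwine_iff (F : List (α × α)) (A C : Finset α) (hAC : A.card = C.card)
    (h1 : (F.map Prod.fst).Nodup) (h2 : (F.map Prod.snd).Nodup) (hc : Cons F A C)
    (σ : Perm α) :
    (∀ a, cu F C (σ a) = cz F A a) ↔ (A.map σ.toEmbedding = C ∧ ∀ q ∈ F, σ q.1 = q.2) := by
  induction F with
  | nil =>
    simp only [cz, cu, List.not_mem_nil, false_imp_iff, implies_true, and_true, Sum.inr.injEq,
      decide_eq_decide]
    constructor
    · intro h
      refine Finset.eq_of_subset_of_card_le ?_ (by rw [Finset.card_map, hAC])
      intro b hb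
      rw [Finset.mem_map] at hb
      obtain ⟨a, ha, rfl⟩ := hb
      exact (h a).2 ha
    · rintro rfl a
      simp
  | cons q F ih =>
    obtain ⟨z, u⟩ := q
    simp only [List.map_cons, List.nodup_cons] at h1 h2
    have hc' : Cons F A C := fun q hq => hc q (List.mem_cons_of_mem _ hq)
    have hzu : (z ∈ A ↔ u ∈ C) := hc (z, u) (by simp)
    have ih' := ih h1.2 h2.2 hc'
    have key : (∀ a, cu ((z, u) :: F) C (σ a) = cz ((z, u) :: F) A a) ↔
        (σ z = u ∧ ∀ a, cu F C (σ a) = cz F A a) := by
      constructor
      · intro h
        have hz := h z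
        simp only [cz, cu, if_true] at hz
        have hzu' : σ z = u := by
          by_contra h3
          rw [if_neg h3] at hz
          exact cu_ne_inl F C _ z h1.1 hz
        refine ⟨hzu', fun a => ?_⟩
        by_cases ha : a = z
        · subst ha
          rw [hzu', cu_not_mem F C u h2.1, cz_not_mem F A a h1.1]
          by_cases h : a ∈ A
          · simp [h, hzu.1 h]
          · have h' : u ∉ C := fun h' => h (hzu.2 h')
            simp [h, h']
        · have h4 : σ a ≠ u := by
            intro h5
            exact ha (σ.injective (h5.trans hzu'.symm))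
          have := h a
          simp only [cz, cu, if_neg ha, if_neg h4] at this
          exact this
      · rintro ⟨hz, h⟩ a
        simp only [cz, cu]
        by_cases ha : a = z
        · subst ha
          rw [if_pos hz, if_pos rfl]
        · have h4 : σ a ≠ u := by
            intro h5
            exact ha (σ.injective (h5.trans hz.symm))
          rw [if_neg ha, if_neg h4]
          exact h a
    rw [key, ih']
    simp only [List.mem_cons, forall_eq_or_imp]
    tauto

theorem card_fiber_true (F : List (α × α)) (A : Finset α) :
    (univ.filter (fun a => cz F A a = Sum.inr true)) = A \ (F.map Prod.fst).toFinset := by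
  ext a
  simp only [mem_filter, mem_univ, true_and, mem_sdiff, List.mem_toFinset]
  by_cases h : a ∈ F.map Prod.fst
  · constructor
    · intro h1
      exfalso
      induction F with
      | nil => simp at h
      | cons q F ih =>
        obtain ⟨z, u⟩ := q
        simp only [cz] at h1
        split_ifs at h1 with h2
        simp only [List.map_cons, List.mem_cons] at h
        exact ih (h.resolve_left h2) h1
    · intro h1
      exact absurd h h1.2
  · rw [cz_not_mem F A a h]
    simp only [Sum.inr.injEq, decide_eq_true_eq]
    tauto

theorem card_fiber_false (F : List (α × α)) (A : Finset α) :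
    (univ.filter (fun a => cz F A a = Sum.inr false)) = Aᶜ \ (F.map Prod.fst).toFinset := by
  ext a
  simp only [mem_filter, mem_univ, true_and, mem_sdiff, List.mem_toFinset, mem_compl]
  by_cases h : a ∈ F.map Prod.fst
  · constructor
    · intro h1
      exfalso
      induction F with
      | nil => simp at h
      | cons q F ih =>
        obtain ⟨z, u⟩ := q
        simp only [cz] at h1
        split_ifs at h1 with h2
        simp only [List.map_cons, List.mem_cons] at h
        exact ih (h.resolve_left h2) h1
    · intro h1
      exact absurd h h1.2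
  · rw [cz_not_mem F A a h]
    simp only [Sum.inr.injEq, decide_eq_false_iff_not]
    tauto

theorem card_fiber_inl (F : List (α × α)) (A : Finset α) (z : α) :
    (univ.filter (fun a => cz F A a = Sum.inl z)).card ≤ 1 := by
  rw [Finset.card_le_one]
  intro a ha b hb
  simp only [mem_filter, mem_univ, true_and] at ha hb
  have key : ∀ (F : List (α × α)) (a : α), cz F A a = Sum.inl z → a = z := by
    intro F
    induction F with
    | nil => intro a h; simp [cz] at h
    | cons q F ih =>
      intro a h
      obtain ⟨z', u⟩ := q
      simp only [cz] at h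
      split_ifs at h with h2
      · rw [h2]
        exact Sum.inl.inj h
      · exact ih a h
  rw [key F a ha, key F b hb]

/-- The number of permutations with `σ '' A = C` and prescribed values. -/
theorem count_perm (F : List (α × α)) (A C : Finset α) (hAC : A.card = C.card)
    (h1 : (F.map Prod.fst).Nodup) (h2 : (F.map Prod.snd).Nodup) (hc : Cons F A C) :
    (univ.filter (fun σ : Perm α => A.map σ.toEmbedding = C ∧ ∀ q ∈ F, σ q.1 = q.2)).card
      = (A \ (F.map Prod.fst).toFinset).card.factorial
        * (Aᶜ \ (F.map Prod.fst).toFinset).card.factorial := by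
  have e : (univ.filter (fun σ : Perm α => A.map σ.toEmbedding = C ∧ ∀ q ∈ F, σ q.1 = q.2))
      = (univ.filter (fun σ : Perm α => ∀ a, cu F C (σ a) = cz F A a)) := by
    ext σ
    simp only [mem_filter, mem_univ, true_and]
    exact (intertwine_iff F A C hAC h1 h2 hc σ).symm
  rw [e, card_intertwine _ _ (fibers_eq F A C hAC h1 h2 hc), Fintype.prod_sum_type]
  have h3 : ∏ z : α, ((univ.filter (fun a => cz F A a = Sum.inl z)).card).factorial = 1 := by
    refine Finset.prod_eq_one (fun z _ => ?_)
    have := card_fiber_inl F A z
    interval_cases (univ.filter (fun a => cz F A a = Sum.inl z)).card <;> rfl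
  rw [h3, one_mul, Fintype.prod_bool, card_fiber_true, card_fiber_false]

omit [Fintype α] [DecidableEq α] in
theorem count_zero {A C : Finset α} {σ : Perm α} {z u : α} (h : A.map σ.toEmbedding = C)
    (hz : σ z = u) : z ∈ A ↔ u ∈ C := by
  subst h
  subst hz
  simp

/-- All entries of a list of pairs. -/
def flat : List (α × α) → List α
  | [] => []
  | (x, y) :: L => x :: y :: flat L

/-- The signed indicator of transversals. -/
def eps : List (α × α) → Finset α → ℤ
  | [], _ => 1
  | (x, y) :: L, A => ((if x ∈ A then 1 else 0) - (if y ∈ A then 1 else 0)) * eps L A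

/-- Weight of a permutation. -/
def KK : List ((α × α) × α) → Perm α → ℤ
  | [], _ => 1
  | ((x, y), u) :: T, σ =>
      ((if σ x = u then 1 else 0) - (if σ y = u then 1 else 0)) * KK T σ

/-- Number of targets outside `C`. -/
def tt : List ((α × α) × α) → Finset α → ℕ
  | [], _ => 0
  | ((_, _), u) :: T, C => tt T C + (if u ∈ C then 0 else 1)

omit [Fintype α] in
theorem tt_le (T : List ((α × α) × α)) (C : Finset α) : tt T C ≤ T.length := by
  induction T with
  | nil => simp [tt]
  | cons q T ih =>
    obtain ⟨⟨x, y⟩, u⟩ := q
    simp only [tt, List.length_cons]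
    split_ifs <;> omega

/-- A permutation takes the prescribed values. -/
def Fits (F : List (α × α)) (σ : Perm α) : Prop := ∀ q ∈ F, σ q.1 = q.2

omit [Fintype α] [DecidableEq α] in
theorem fits_cons (x u : α) (F : List (α × α)) (σ : Perm α) :
    Fits ((x, u) :: F) σ ↔ (σ x = u ∧ Fits F σ) := by
  simp only [Fits, List.mem_cons, forall_eq_or_imp]

omit [Fintype α] [DecidableEq α] in
theorem cons_cons (x u : α) (F : List (α × α)) (A C : Finset α) :
    Cons ((x, u) :: F) A C ↔ ((x ∈ A ↔ u ∈ C) ∧ Cons F A C) := by
  simp only [Cons, List.mem_cons, forall_eq_or_imp]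

omit [Fintype α] [DecidableEq α] in
theorem nodup_move {l m : List α} {x y : α} (h : (l ++ x :: y :: m).Nodup) :
    (x :: (l ++ m)).Nodup ∧ (y :: (l ++ m)).Nodup := by
  constructor
  · have h' : (x :: (l ++ y :: m)).Nodup := (List.perm_middle.nodup_iff).1 h
    refine h'.sublist ?_
    refine List.Sublist.cons_cons x ?_
    exact List.Sublist.append (List.Sublist.refl l) (List.sublist_cons_self y m)
  · have h' : (l ++ y :: m).Nodup :=
      h.sublist (List.Sublist.append (List.Sublist.refl l) (List.sublist_cons_self x _))
    exact (List.perm_middle.nodup_iff).1 h'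

open Classical in
theorem Z_formula (T : List ((α × α) × α)) (A C : Finset α) (hAC : A.card = C.card) :
    ∀ (F : List (α × α)), (F.map Prod.fst ++ flat (T.map Prod.fst)).Nodup →
    (F.map Prod.snd ++ T.map Prod.snd).Nodup →
    ∑ σ : Perm α, (if (A.map σ.toEmbedding = C ∧ Fits F σ) then KK T σ else 0)
      = (if Cons F A C then
          eps (T.map Prod.fst) A * (-1) ^ (tt T C)
            * ((((A \ (F.map Prod.fst).toFinset).card - (T.length - tt T C)).factorial : ℕ) : ℤ)
            * ((((Aᶜ \ (F.map Prod.fst).toFinset).card - tt T C).factorial : ℕ) : ℤ)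
          else 0) := by
  induction T with
  | nil =>
    intro F h1 h2
    simp only [List.map_nil, flat, List.append_nil] at h1 h2
    simp only [KK, Finset.sum_boole, tt, eps, List.map_nil, List.length_nil, pow_zero,
      Nat.sub_zero, mul_one, one_mul]
    have e0 : (univ.filter (fun σ : Perm α => A.map σ.toEmbedding = C ∧ Fits F σ))
        = (univ.filter (fun σ : Perm α => A.map σ.toEmbedding = C ∧ ∀ q ∈ F, σ q.1 = q.2)) := by
      ext σ
      simp only [mem_filter, Fits]
    rw [e0]
    split_ifs with hc
    · rw [count_perm F A C hAC h1 h2 hc]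
      push_cast
      rfl
    · have : (univ.filter (fun σ : Perm α => A.map σ.toEmbedding = C ∧ ∀ q ∈ F, σ q.1 = q.2))
          = ∅ := by
        rw [Finset.filter_eq_empty_iff]
        rintro σ _ ⟨h3, h4⟩
        exact hc (fun q hq => count_zero h3 (h4 q hq))
      rw [this]
      simp
  | cons q T ih =>
    obtain ⟨⟨x, y⟩, u⟩ := q
    intro F h1 h2
    simp only [List.map_cons, flat] at h1 h2
    have hx := ih ((x, u) :: F) (by
        simpa only [List.map_cons, List.cons_append] using (nodup_move h1).1) (by
        simpa only [List.map_cons, List.cons_append] using (List.perm_middle.nodup_iff).1 h2)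
    have hy := ih ((y, u) :: F) (by
        simpa only [List.map_cons, List.cons_append] using (nodup_move h1).2) (by
        simpa only [List.map_cons, List.cons_append] using (List.perm_middle.nodup_iff).1 h2)
    have hsplit : ∑ σ : Perm α, (if (A.map σ.toEmbedding = C ∧ Fits F σ) then
          KK (((x, y), u) :: T) σ else 0)
        = ∑ σ : Perm α, (if (A.map σ.toEmbedding = C ∧ Fits ((x, u) :: F) σ) then
            KK T σ else 0)
        - ∑ σ : Perm α, (if (A.map σ.toEmbedding = C ∧ Fits ((y, u) :: F) σ) then
            KK T σ else 0) := by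
      rw [← Finset.sum_sub_distrib]
      refine Finset.sum_congr rfl (fun σ _ => ?_)
      simp only [KK, fits_cons]
      by_cases h3 : A.map σ.toEmbedding = C <;> by_cases h4 : Fits F σ <;>
        by_cases h5 : σ x = u <;> by_cases h6 : σ y = u <;> simp [h3, h4, h5, h6]
    rw [hsplit, hx, hy]
    have hxF : x ∉ (F.map Prod.fst).toFinset := by
      rw [List.mem_toFinset]
      intro h
      have := (nodup_move h1).1
      rw [List.nodup_cons] at this
      exact this.1 (List.mem_append_left _ h)
    have hyF : y ∉ (F.map Prod.fst).toFinset := by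
      rw [List.mem_toFinset]
      intro h
      have := (nodup_move h1).2
      rw [List.nodup_cons] at this
      exact this.1 (List.mem_append_left _ h)
    have hle := tt_le T C
    simp only [cons_cons, List.map_cons, List.toFinset_cons, eps, tt, List.length_cons]
    by_cases hF : Cons F A C
    · have e1 : ∀ z, z ∉ (F.map Prod.fst).toFinset → z ∈ A →
          (A \ insert z (F.map Prod.fst).toFinset).card
            = (A \ (F.map Prod.fst).toFinset).card - 1 ∧
          (Aᶜ \ insert z (F.map Prod.fst).toFinset).card
            = (Aᶜ \ (F.map Prod.fst).toFinset).card := by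
        intro z hz hzA
        constructor
        · rw [Finset.sdiff_insert, Finset.card_erase_of_mem]
          rw [Finset.mem_sdiff]
          exact ⟨hzA, hz⟩
        · rw [Finset.sdiff_insert, Finset.erase_eq_of_notMem]
          rw [Finset.mem_sdiff, Finset.mem_compl]
          exact fun h => h.1 hzA
      have e2 : ∀ z, z ∉ (F.map Prod.fst).toFinset → z ∉ A →
          (A \ insert z (F.map Prod.fst).toFinset).card
            = (A \ (F.map Prod.fst).toFinset).card ∧
          (Aᶜ \ insert z (F.map Prod.fst).toFinset).card
            = (Aᶜ \ (F.map Prod.fst).toFinset).card - 1 := by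
        intro z hz hzA
        constructor
        · rw [Finset.sdiff_insert, Finset.erase_eq_of_notMem]
          rw [Finset.mem_sdiff]
          exact fun h => hzA h.1
        · rw [Finset.sdiff_insert, Finset.card_erase_of_mem]
          rw [Finset.mem_sdiff, Finset.mem_compl]
          exact ⟨hzA, hz⟩
      simp only [hF, and_true, if_true]
      by_cases hu : u ∈ C
      · have f1 : (A \ (F.map Prod.fst).toFinset).card - 1 - (T.length - tt T C)
            = (A \ (F.map Prod.fst).toFinset).card - (T.length + 1 - tt T C) := by omega
        by_cases hxA : x ∈ A <;> by_cases hyA : y ∈ A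
        · simp [hu, hxA, hyA, (e1 x hxF hxA).1, (e1 x hxF hxA).2, (e1 y hyF hyA).1,
            (e1 y hyF hyA).2]
        · simp [hu, hxA, hyA, (e1 x hxF hxA).1, (e1 x hxF hxA).2, f1]
        · simp [hu, hxA, hyA, (e1 y hyF hyA).1, (e1 y hyF hyA).2, f1]
        · simp [hu, hxA, hyA]
      · have f1 : (Aᶜ \ (F.map Prod.fst).toFinset).card - 1 - (tt T C)
            = (Aᶜ \ (F.map Prod.fst).toFinset).card - (tt T C + 1) := by omega
        have f2 : T.length + 1 - (tt T C + 1) = T.length - tt T C := by omega
        by_cases hxA : x ∈ A <;> by_cases hyA : y ∈ A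
        · simp [hu, hxA, hyA]
        · simp only [hu, hxA, hyA, (e2 y hyF hyA).1, (e2 y hyF hyA).2, f1, f2, if_true, if_false,
            iff_false, not_true, pow_succ]
          ring
        · simp only [hu, hxA, hyA, (e2 x hxF hxA).1, (e2 x hxF hxA).2, f1, f2, if_true, if_false,
            iff_false, not_true, pow_succ]
          ring
        · simp [hu, hxA, hyA, (e2 x hxF hxA).1, (e2 x hxF hxA).2, (e2 y hyF hyA).1,
            (e2 y hyF hyA).2]
    · simp only [hF, and_false, if_false, sub_zero]

end Pool.Agent.Lib.MP_e7cc07_co
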