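import Pool.Agent.Lib.MP_e7cc07_co.Moment

/-!
A family that hits every permutation is full and exact.
-/

namespace Pool.Agent.Lib.MP_e7cc07_co

open Finset Equiv

theorem count_one {α : Type} [Fintype α] [DecidableEq α] (A C : Finset α)
    (hAC : A.card = C.card) :
    (univ.filter (fun σ : Perm α => A.map σ.toEmbedding = C)).card
      = A.card.factorial * (Fintype.card α - A.card).factorial := by
  have h := count_perm [] A C hAC (by simp) (by simp) (by intro q hq; simp at hq)
  simp only [List.not_mem_nil, false_imp_iff, implies_true, and_true, List.map_nil,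
    List.toFinset_nil, Finset.sdiff_empty, Finset.card_compl] at h
  exact h

theorem cover_exact (r p : ℕ) (hpr : p ≤ r) (c : Finset (Fin r) → Finset (Fin r))
    (hc : ∀ X : Finset (Fin r), X.card = p → (c X).card = p)
    (dom : Finset (Finset (Fin r))) (hdom : dom ⊆ univ.powersetCard p)
    (h : ∀ σ : Perm (Fin r), ∃ X ∈ dom, X.map σ.toEmbedding = c X) :
    dom = univ.powersetCard p ∧ Exact p c := by
  have h1 : ∀ σ : Perm (Fin r), 1 ≤ (dom.filter (fun X => X.map σ.toEmbedding = c X)).card := by
    intro σ
    obtain ⟨X, hX, hX'⟩ := h σ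
    exact Finset.card_pos.2 ⟨X, Finset.mem_filter.2 ⟨hX, hX'⟩⟩
  have h2 : ∑ σ : Perm (Fin r), (dom.filter (fun X => X.map σ.toEmbedding = c X)).card
      = dom.card * (p.factorial * (r - p).factorial) := by
    have e1 : ∀ σ : Perm (Fin r), (dom.filter (fun X => X.map σ.toEmbedding = c X)).card
        = ∑ X ∈ dom, (if X.map σ.toEmbedding = c X then 1 else 0) := by
      intro σ
      rw [Finset.card_filter]
    rw [Finset.sum_congr rfl (fun σ _ => e1 σ), Finset.sum_comm]
    have e2 : ∀ X ∈ dom, (∑ σ : Perm (Fin r), (if X.map σ.toEmbedding = c X then 1 else 0))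
        = p.factorial * (r - p).factorial := by
      intro X hX
      have hXp : X.card = p := (Finset.mem_powersetCard.1 (hdom hX)).2
      rw [← Finset.card_filter, count_one X (c X) (by rw [hXp, hc X hXp]), hXp,
        Fintype.card_fin]
    rw [Finset.sum_congr rfl e2, Finset.sum_const, smul_eq_mul]
  have h3 : (Finset.univ : Finset (Perm (Fin r))).card = r.factorial := by
    rw [Finset.card_univ, Fintype.card_perm, Fintype.card_fin]
  have h4 : r.choose p * (p.factorial * (r - p).factorial) = r.factorial := by
    rw [← mul_assoc]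
    exact Nat.choose_mul_factorial_mul_factorial hpr
  have h5 : dom.card ≤ r.choose p := by
    have := Finset.card_le_card hdom
    rwa [Finset.card_powersetCard, Finset.card_univ, Fintype.card_fin] at this
  have hpos : 0 < p.factorial * (r - p).factorial :=
    Nat.mul_pos (Nat.factorial_pos _) (Nat.factorial_pos _)
  have h6 : r.factorial ≤ ∑ σ : Perm (Fin r),
      (dom.filter (fun X => X.map σ.toEmbedding = c X)).card := by
    rw [← h3, Finset.card_eq_sum_ones]
    exact Finset.sum_le_sum (fun σ _ => h1 σ)
  have h7 : r.choose p ≤ dom.card := by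
    rw [h2, ← h4] at h6
    exact Nat.le_of_mul_le_mul_right h6 hpos
  have hcard : dom.card = r.choose p := le_antisymm h5 h7
  have hfull : dom = univ.powersetCard p := by
    refine Finset.eq_of_subset_of_card_le hdom ?_
    rw [Finset.card_powersetCard, Finset.card_univ, Fintype.card_fin, hcard]
  refine ⟨hfull, hc, ?_⟩
  have h8 : ∑ σ : Perm (Fin r), (dom.filter (fun X => X.map σ.toEmbedding = c X)).card
      = ∑ _σ : Perm (Fin r), 1 := by
    rw [h2, hcard, h4, ← Finset.card_eq_sum_ones, h3]
  intro σ
  have h9 := (Finset.sum_eq_sum_iff_of_le (fun σ _ => h1 σ)).1 h8.symm σ (Finset.mem_univ σ)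
  rw [← hfull]
  exact h9.symm

end Pool.Agent.Lib.MP_e7cc07_co
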