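import Pool.Agent.Lib.MP_e7cc07_co.Count

/-!
The moment identity for exact maps.
-/

namespace Pool.Agent.Lib.MP_e7cc07_co

open Finset Equiv

variable {α : Type} [Fintype α] [DecidableEq α]

/-- Every permutation has exactly one hit. -/
def Exact (p : ℕ) (c : Finset α → Finset α) : Prop :=
  (∀ A : Finset α, A.card = p → (c A).card = p) ∧
  ∀ σ : Perm α, ((univ.powersetCard p).filter (fun A => A.map σ.toEmbedding = c A)).card = 1

omit [Fintype α] in
theorem KK_swap (T : List ((α × α) × α)) (σ : Perm α) (x y : α)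
    (hx : x ∉ flat (T.map Prod.fst)) (hy : y ∉ flat (T.map Prod.fst)) :
    KK T (σ * Equiv.swap x y) = KK T σ := by
  induction T with
  | nil => rfl
  | cons q T ih =>
    obtain ⟨⟨a, b⟩, u⟩ := q
    simp only [List.map_cons, flat, List.mem_cons, not_or] at hx hy
    have ha : (σ * Equiv.swap x y) a = σ a := by
      rw [Perm.mul_apply, Equiv.swap_apply_of_ne_of_ne (Ne.symm hx.1) (Ne.symm hy.1)]
    have hb : (σ * Equiv.swap x y) b = σ b := by
      rw [Perm.mul_apply, Equiv.swap_apply_of_ne_of_ne (Ne.symm hx.2.1) (Ne.symm hy.2.1)]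
    simp only [KK, ih hx.2.2 hy.2.2, ha, hb]

theorem sum_KK (T : List ((α × α) × α)) (hT : T ≠ []) (h : (flat (T.map Prod.fst)).Nodup) :
    ∑ σ : Perm α, KK T σ = 0 := by
  cases T with
  | nil => exact absurd rfl hT
  | cons q T =>
    obtain ⟨⟨x, y⟩, u⟩ := q
    simp only [List.map_cons, flat, List.nodup_cons, List.mem_cons, not_or] at h
    have h1 : ∑ σ : Perm α, KK (((x, y), u) :: T) σ
        = ∑ σ : Perm α, KK (((x, y), u) :: T) (σ * Equiv.swap x y) :=
      (Fintype.sum_equiv (Equiv.mulRight (Equiv.swap x y)) _ _ (fun σ => rfl)).symm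
    have h2 : ∀ σ : Perm α, KK (((x, y), u) :: T) (σ * Equiv.swap x y)
        = - KK (((x, y), u) :: T) σ := by
      intro σ
      simp only [KK, Perm.mul_apply, Equiv.swap_apply_left, Equiv.swap_apply_right]
      rw [KK_swap T σ x y h.1.2 h.2.1]
      ring
    have h3 : ∑ σ : Perm α, KK (((x, y), u) :: T) (σ * Equiv.swap x y)
        = - ∑ σ : Perm α, KK (((x, y), u) :: T) σ := by
      rw [← Finset.sum_neg_distrib]
      exact Finset.sum_congr rfl (fun σ _ => h2 σ)
    linarith

/-- The zonal weight. -/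
def gw (n p j t : ℕ) : ℤ :=
  (-1) ^ t * (((p - (j - t)).factorial : ℕ) : ℤ) * (((n - p - t).factorial : ℕ) : ℤ)

theorem moment (p : ℕ) (c : Finset α → Finset α) (hc : Exact p c)
    (T : List ((α × α) × α)) (hT : T ≠ []) (h1 : (flat (T.map Prod.fst)).Nodup)
    (h2 : (T.map Prod.snd).Nodup) :
    ∑ A ∈ (univ : Finset α).powersetCard p,
      eps (T.map Prod.fst) A * gw (Fintype.card α) p T.length (tt T (c A)) = 0 := by
  classical
  have e1 : ∑ A ∈ (univ : Finset α).powersetCard p,
      eps (T.map Prod.fst) A * gw (Fintype.card α) p T.length (tt T (c A))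
      = ∑ A ∈ (univ : Finset α).powersetCard p, ∑ σ : Perm α,
        (if A.map σ.toEmbedding = c A then KK T σ else 0) := by
    refine Finset.sum_congr rfl (fun A hA => ?_)
    rw [Finset.mem_powersetCard] at hA
    have hA2 := hc.1 A hA.2
    have hz := Z_formula T A (c A) (by rw [hA.2, hA2]) [] (by simpa using h1) (by simpa using h2)
    have hfits : ∀ σ : Perm α, Fits [] σ := by
      intro σ q hq
      simp at hq
    have hcons : Cons [] A (c A) := by
      intro q hq
      simp at hq
    simp only [hfits, and_true, hcons, if_true, List.map_nil, List.toFinset_nil,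
      Finset.sdiff_empty, hA.2, Finset.card_compl] at hz
    rw [hz, gw]
    ring
  rw [e1, Finset.sum_comm]
  have e2 : ∀ σ : Perm α, ∑ A ∈ (univ : Finset α).powersetCard p,
      (if A.map σ.toEmbedding = c A then KK T σ else 0) = KK T σ := by
    intro σ
    rw [← Finset.sum_filter, Finset.sum_const, hc.2 σ, one_smul]
  rw [Finset.sum_congr rfl (fun σ _ => e2 σ)]
  exact sum_KK T hT h1

end Pool.Agent.Lib.MP_e7cc07_co
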