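import Pool.Agent.Lib.MP_e7cc07_co.Moment

/-!
Pairs of sets, bad maps, and complements.
-/

namespace Pool.Agent.Lib.MP_e7cc07_co

open Finset Equiv

variable {α : Type} [Fintype α] [DecidableEq α]

/-- Transitivity on pairs of sets with given intersection size. -/
theorem two_sets (A B A' B' : Finset α) (hA : A.card = A'.card) (hB : B.card = B'.card)
    (hAB : (A ∩ B).card = (A' ∩ B').card) :
    ∃ σ : Perm α, A.map σ.toEmbedding = A' ∧ B.map σ.toEmbedding = B' := by
  classical
  have hcard : ∀ (A B : Finset α) (i : Bool × Bool),
      (univ.filter (fun a => (decide (a ∈ A), decide (a ∈ B)) = i)).card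
        = if i = (true, true) then (A ∩ B).card else
          if i = (true, false) then A.card - (A ∩ B).card else
          if i = (false, true) then B.card - (A ∩ B).card else
            (Fintype.card α - B.card) - (A.card - (A ∩ B).card) := by
    intro A B i
    have h1 : (A \ B).card = A.card - (A ∩ B).card := by
      have := Finset.card_sdiff_add_card_inter A B
      omega
    have h2 : (B \ A).card = B.card - (A ∩ B).card := by
      have := Finset.card_sdiff_add_card_inter B A
      rw [Finset.inter_comm] at this
      omega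
    have h3 : (Bᶜ \ A).card = (Fintype.card α - B.card) - (A.card - (A ∩ B).card) := by
      have e1 := Finset.card_sdiff_add_card_inter Bᶜ A
      have e2 : Bᶜ ∩ A = A \ B := by
        ext a
        simp only [Finset.mem_inter, Finset.mem_compl, Finset.mem_sdiff]
        tauto
      rw [e2, h1, Finset.card_compl] at e1
      omega
    obtain ⟨b1, b2⟩ := i
    cases b1 <;> cases b2
    · have e : univ.filter (fun a => (decide (a ∈ A), decide (a ∈ B)) = (false, false))
          = Bᶜ \ A := by
        ext a
        simp only [Finset.mem_filter, Finset.mem_univ, true_and, Prod.mk.injEq,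
          decide_eq_false_iff_not, Finset.mem_sdiff, Finset.mem_compl]
        tauto
      rw [e, h3]
      simp
    · have e : univ.filter (fun a => (decide (a ∈ A), decide (a ∈ B)) = (false, true))
          = B \ A := by
        ext a
        simp only [Finset.mem_filter, Finset.mem_univ, true_and, Prod.mk.injEq,
          decide_eq_false_iff_not, decide_eq_true_eq, Finset.mem_sdiff]
        tauto
      rw [e, h2]
      simp
    · have e : univ.filter (fun a => (decide (a ∈ A), decide (a ∈ B)) = (true, false))
          = A \ B := by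
        ext a
        simp only [Finset.mem_filter, Finset.mem_univ, true_and, Prod.mk.injEq,
          decide_eq_false_iff_not, decide_eq_true_eq, Finset.mem_sdiff]
      rw [e, h1]
      simp
    · have e : univ.filter (fun a => (decide (a ∈ A), decide (a ∈ B)) = (true, true))
          = A ∩ B := by
        ext a
        simp only [Finset.mem_filter, Finset.mem_univ, true_and, Prod.mk.injEq,
          decide_eq_true_eq, Finset.mem_inter]
      rw [e]
      simp
  have hf : ∀ i : Bool × Bool,
      (univ.filter (fun a => (decide (a ∈ A), decide (a ∈ B)) = i)).card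
        = (univ.filter (fun a => (decide (a ∈ A'), decide (a ∈ B')) = i)).card := by
    intro i
    rw [hcard, hcard, hA, hB, hAB]
  have e : ∀ i, {a // (decide (a ∈ A), decide (a ∈ B)) = i}
      ≃ {a // (decide (a ∈ A'), decide (a ∈ B')) = i} := by
    intro i
    refine Fintype.equivOfCardEq ?_
    rw [Fintype.card_subtype, Fintype.card_subtype]
    exact hf i
  refine ⟨Equiv.ofFiberEquiv e, ?_, ?_⟩
  · refine Finset.eq_of_subset_of_card_le ?_ (by rw [Finset.card_map, hA])
    intro b hb
    rw [Finset.mem_map] at hb
    obtain ⟨a, ha, rfl⟩ := hb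
    have := Equiv.ofFiberEquiv_map e a
    simp only [Prod.mk.injEq, decide_eq_decide] at this
    exact this.1.2 ha
  · refine Finset.eq_of_subset_of_card_le ?_ (by rw [Finset.card_map, hB])
    intro b hb
    rw [Finset.mem_map] at hb
    obtain ⟨a, ha, rfl⟩ := hb
    have := Equiv.ofFiberEquiv_map e a
    simp only [Prod.mk.injEq, decide_eq_decide] at this
    exact this.2.2 ha

/-- Pairwise consequence of exactness. -/
def Bad (p : ℕ) (c : Finset α → Finset α) : Prop :=
  (∀ A : Finset α, A.card = p → (c A).card = p) ∧
  ∀ A B : Finset α, A.card = p → B.card = p → A ≠ B → (c A ∩ c B).card ≠ (A ∩ B).card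

theorem Exact.bad {p : ℕ} {c : Finset α → Finset α} (hc : Exact p c) : Bad p c := by
  refine ⟨hc.1, ?_⟩
  intro A B hA hB hAB h
  obtain ⟨σ, h1, h2⟩ := two_sets A B (c A) (c B) (by rw [hA, hc.1 A hA]) (by rw [hB, hc.1 B hB])
    h.symm
  have h3 := hc.2 σ
  rw [Finset.card_eq_one] at h3
  obtain ⟨X, hX⟩ := h3
  have hAX : A ∈ ({X} : Finset (Finset α)) := by
    rw [← hX, Finset.mem_filter, Finset.mem_powersetCard]
    exact ⟨⟨Finset.subset_univ _, hA⟩, h1⟩
  have hBX : B ∈ ({X} : Finset (Finset α)) := by
    rw [← hX, Finset.mem_filter, Finset.mem_powersetCard]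
    exact ⟨⟨Finset.subset_univ _, hB⟩, h2⟩
  rw [Finset.mem_singleton] at hAX hBX
  exact hAB (hAX.trans hBX.symm)

/-- Exactness passes to complements. -/
theorem Exact.compl {p : ℕ} {c : Finset α → Finset α} (hc : Exact p c)
    (hp : p ≤ Fintype.card α) :
    Exact (Fintype.card α - p) (fun A => (c Aᶜ)ᶜ) := by
  constructor
  · intro A hA
    have h1 : (Aᶜ).card = p := by rw [Finset.card_compl, hA]; omega
    rw [Finset.card_compl, hc.1 _ h1]
  · intro σ
    rw [← hc.2 σ]
    refine Finset.card_bij' (fun A _ => Aᶜ) (fun A _ => Aᶜ) ?_ ?_ ?_ ?_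
    · intro A hA
      rw [Finset.mem_filter, Finset.mem_powersetCard] at hA ⊢
      refine ⟨⟨Finset.subset_univ _, by rw [Finset.card_compl, hA.1.2]; omega⟩, ?_⟩
      have h2 := hA.2
      rw [← compl_inj_iff, compl_compl] at h2
      rw [← h2]
      ext b
      simp only [Finset.mem_map_equiv, Finset.mem_compl]
    · intro A hA
      rw [Finset.mem_filter, Finset.mem_powersetCard] at hA ⊢
      refine ⟨⟨Finset.subset_univ _, by rw [Finset.card_compl, hA.1.2]⟩, ?_⟩
      show _ = (c Aᶜᶜ)ᶜ
      rw [compl_compl, ← hA.2]
      ext b
      simp only [Finset.mem_map_equiv, Finset.mem_compl]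
    · intro A _
      exact compl_compl A
    · intro A _
      exact compl_compl A

end Pool.Agent.Lib.MP_e7cc07_co
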