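import Pool.Agent.Lib.MP_e7cc07_co.Pair
import Pool.Agent.Lib.MP_e7cc07_co.Diff

/-!
A verified search procedure for bad maps on small sets.
-/

namespace Pool.Agent.Lib.MP_e7cc07_co

open Finset Equiv

/-- Decoding of a bit mask. -/
def dec (r n : ℕ) : Finset (Fin r) := univ.filter (fun i => n.testBit i = true)

/-- Population count of the first `r` bits. -/
def pc : ℕ → ℕ → ℕ
  | 0, _ => 0
  | r + 1, n => pc r n + (if n.testBit r then 1 else 0)

theorem card_dec (r n : ℕ) : (dec r n).card = pc r n := by
  induction r with
  | zero => simp [dec, pc]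
  | succ r ih =>
    rw [dec, Finset.card_filter, Fin.sum_univ_castSucc, pc, ← ih, dec, Finset.card_filter]
    simp

theorem mem_dec (r n : ℕ) (i : Fin r) : i ∈ dec r n ↔ n.testBit i = true := by
  simp [dec]

theorem dec_and (r a b : ℕ) : dec r (a &&& b) = dec r a ∩ dec r b := by
  ext i
  rw [Finset.mem_inter, mem_dec, mem_dec, mem_dec, Nat.testBit_and]
  simp

theorem exists_dec (r : ℕ) (C : Finset (Fin r)) : ∃ n, n < 2 ^ r ∧ dec r n = C := by
  induction C using Finset.induction_on with
  | empty =>
    refine ⟨0, by positivity, ?_⟩
    ext i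
    simp [mem_dec]
  | insert i C _ ih =>
    obtain ⟨n, hn, hC⟩ := ih
    refine ⟨n ||| 2 ^ (i : ℕ), ?_, ?_⟩
    · exact Nat.or_lt_two_pow hn (Nat.pow_lt_pow_right (by norm_num) i.isLt)
    · ext k
      rw [mem_dec, Nat.testBit_or, Nat.testBit_two_pow, Finset.mem_insert, ← hC, mem_dec]
      simp only [Bool.or_eq_true, decide_eq_true_eq]
      constructor
      · rintro (h | h)
        · exact Or.inr h
        · exact Or.inl (Fin.ext h.symm)
      · rintro (h | h)
        · exact Or.inr (by rw [h])
        · exact Or.inl h

/-- The colour `P` for `B` is excluded by an assigned pair. -/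
def killed (r p B P : ℕ) : List (ℕ × ℕ) → Bool
  | [] => false
  | (a, b) :: st =>
    (Nat.beq (pc r (a &&& B)) (pc r (b &&& P)) && Nat.blt (pc r (a &&& B)) p)
      || killed r p B P st

/-- The elements `e`, `f` lie in the same cell. -/
def same (e f : ℕ) : List (ℕ × ℕ) → Bool
  | [] => true
  | (_, b) :: st => (b.testBit e == b.testBit f) && same e f st

/-- `P` can be moved down by exchanging `f` with some smaller element. -/
def movable1 (P f : ℕ) (st : List (ℕ × ℕ)) : ℕ → Bool
  | 0 => false
  | e + 1 => (!(P.testBit e) && same e f st) || movable1 P f st e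

/-- `P` is not minimal in its orbit. -/
def movable (P : ℕ) (st : List (ℕ × ℕ)) : ℕ → Bool
  | 0 => false
  | f + 1 => (P.testBit f && movable1 P f st f) || movable P st f

/-- Loop over candidate colours. -/
def loop (skip : ℕ → Bool) (f : ℕ → List ℕ → Option (List ℕ)) : List ℕ → List ℕ →
    Option (List ℕ)
  | [], cert => some cert
  | P :: Ps, cert =>
    if skip P then loop skip f Ps cert else
      match f P cert with
      | none => none
      | some cert' => loop skip f Ps cert'

/-- The search: the certificate lists the branching sets in preorder. -/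
def run (r p : ℕ) (cols : List ℕ) : ℕ → List (ℕ × ℕ) → List ℕ → Option (List ℕ)
  | 0, _, _ => none
  | _ + 1, _, [] => none
  | fuel + 1, st, B :: cert =>
    if Nat.beq (pc r B) p then
      loop (fun P => killed r p B P st || movable P st r)
        (fun P cert' => run r p cols fuel ((B, P) :: st) cert') cols cert
    else none

theorem loop_spec (skip : ℕ → Bool) (f : ℕ → List ℕ → Option (List ℕ)) :
    ∀ (Ps cert : List ℕ), (loop skip f Ps cert).isSome = true → ∀ P ∈ Ps,
      skip P = true ∨ ∃ cert', (f P cert').isSome = true := by
  intro Ps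
  induction Ps with
  | nil => intro cert _ P hP; simp at hP
  | cons Q Ps ih =>
    intro cert h P hP
    rw [List.mem_cons] at hP
    simp only [loop] at h
    split_ifs at h with h1
    · rcases hP with rfl | hP
      · exact Or.inl h1
      · exact ih cert h P hP
    · cases h2 : f Q cert with
      | none => rw [h2] at h; simp at h
      | some cert' =>
        rw [h2] at h
        rcases hP with rfl | hP
        · exact Or.inr ⟨cert, by rw [h2]; rfl⟩
        · exact ih cert' h P hP

theorem killed_spec (r p B P : ℕ) (st : List (ℕ × ℕ)) (h : killed r p B P st = true) :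
    ∃ a b, (a, b) ∈ st ∧ pc r (a &&& B) = pc r (b &&& P) ∧ pc r (a &&& B) < p := by
  induction st with
  | nil => simp [killed] at h
  | cons q st ih =>
    obtain ⟨a, b⟩ := q
    simp only [killed, Bool.or_eq_true, Bool.and_eq_true] at h
    rcases h with ⟨h1, h2⟩ | h
    · refine ⟨a, b, by simp, Nat.eq_of_beq_eq_true h1, ?_⟩
      simpa [Nat.blt_eq] using h2
    · obtain ⟨a', b', h1, h2⟩ := ih h
      exact ⟨a', b', List.mem_cons_of_mem _ h1, h2⟩

theorem same_spec (e f : ℕ) (st : List (ℕ × ℕ)) (h : same e f st = true) :
    ∀ a b, (a, b) ∈ st → b.testBit e = b.testBit f := by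
  induction st with
  | nil => intro a b h; simp at h
  | cons q st ih =>
    obtain ⟨a', b'⟩ := q
    simp only [same, Bool.and_eq_true, beq_iff_eq] at h
    intro a b hab
    rw [List.mem_cons] at hab
    rcases hab with hab | hab
    · obtain ⟨rfl, rfl⟩ := Prod.mk.inj hab
      exact h.1
    · exact ih h.2 a b hab

theorem movable1_spec (P f : ℕ) (st : List (ℕ × ℕ)) : ∀ n, movable1 P f st n = true →
    ∃ e, e < n ∧ P.testBit e = false ∧ same e f st = true := by
  intro n
  induction n with
  | zero => intro h; simp [movable1] at h
  | succ n ih =>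
    intro h
    simp only [movable1, Bool.or_eq_true, Bool.and_eq_true, Bool.not_eq_true'] at h
    rcases h with ⟨h1, h2⟩ | h
    · exact ⟨n, Nat.lt_succ_self n, h1, h2⟩
    · obtain ⟨e, h1, h2⟩ := ih h
      exact ⟨e, by omega, h2⟩

theorem movable_spec (P : ℕ) (st : List (ℕ × ℕ)) : ∀ n, movable P st n = true →
    ∃ f, f < n ∧ P.testBit f = true ∧ ∃ e, e < f ∧ P.testBit e = false ∧
      same e f st = true := by
  intro n
  induction n with
  | zero => intro h; simp [movable] at h
  | succ n ih =>
    intro h
    simp only [movable, Bool.or_eq_true, Bool.and_eq_true] at h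
    rcases h with ⟨h1, h2⟩ | h
    · obtain ⟨e, h3⟩ := movable1_spec P n st n h2
      exact ⟨n, Nat.lt_succ_self n, h1, e, h3⟩
    · obtain ⟨f, h1, h2⟩ := ih h
      exact ⟨f, by omega, h2⟩

/-- A map extends the assigned values. -/
def Extends (r : ℕ) (st : List (ℕ × ℕ)) (c : Finset (Fin r) → Finset (Fin r)) : Prop :=
  ∀ a b, (a, b) ∈ st → c (dec r a) = dec r b

theorem Bad.comp {r p : ℕ} {c : Finset (Fin r) → Finset (Fin r)} (hc : Bad p c)
    (π τ : Perm (Fin r)) : Bad p (fun A => (c (A.map τ.toEmbedding)).map π.toEmbedding) := by
  constructor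
  · intro A hA
    rw [Finset.card_map]
    exact hc.1 _ (by rw [Finset.card_map, hA])
  · intro A B hA hB hAB
    rw [← Finset.map_inter, Finset.card_map]
    have h1 := hc.2 (A.map τ.toEmbedding) (B.map τ.toEmbedding) (by rw [Finset.card_map, hA])
      (by rw [Finset.card_map, hB]) (fun h => hAB (Finset.map_injective _ h))
    rw [← Finset.map_inter, Finset.card_map] at h1
    exact h1

/-- The orbit reduction: it suffices to treat colours that are not movable. -/
theorem reduce {r p : ℕ} (st : List (ℕ × ℕ)) (X : Finset (Fin r))
    (h : ∀ c, Bad p c → Extends r st c → ∀ P, dec r P = c X → P < 2 ^ r →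
      movable P st r = false → False) :
    ∀ c, Bad p c → Extends r st c → False := by
  have key : ∀ (m : ℕ) (c : Finset (Fin r) → Finset (Fin r)), Bad p c → Extends r st c →
      (∑ i ∈ c X, (i : ℕ)) = m → False := by
    intro m
    induction m using Nat.strong_induction_on with
    | _ m ih =>
      intro c hc he hm
      obtain ⟨P, hPr, hP⟩ := exists_dec r (c X)
      by_cases hmov : movable P st r = true
      · obtain ⟨f, hf, hPf, e, hef, hPe, hs⟩ := movable_spec P st r hmov
        have hfX : (⟨f, hf⟩ : Fin r) ∈ c X := by
          rw [← hP, mem_dec]; exact hPf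
        have heX : (⟨e, by omega⟩ : Fin r) ∉ c X := by
          rw [← hP, mem_dec]
          simp [hPe]
        obtain ⟨f', hf'⟩ : ∃ f' : Fin r, f' = ⟨f, hf⟩ := ⟨_, rfl⟩
        obtain ⟨e', he'⟩ : ∃ e' : Fin r, e' = ⟨e, by omega⟩ := ⟨_, rfl⟩
        rw [← hf'] at hfX
        rw [← he'] at heX
        have hbad := hc.comp (Equiv.swap e' f') (Equiv.refl _)
        have hid : ∀ A : Finset (Fin r), A.map (Equiv.refl (Fin r)).toEmbedding = A := by
          intro A
          simp
        simp only [hid] at hbad
        refine ih _ ?_ _ hbad ?_ rfl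
        · rw [← hm, Finset.sum_map]
          have e1 : ∑ i ∈ c X, (((Equiv.swap e' f').toEmbedding i : Fin r) : ℕ)
              = (∑ i ∈ (c X).erase f', (i : ℕ)) + e := by
            rw [← Finset.sum_erase_add _ _ hfX]
            congr 1
            · refine Finset.sum_congr rfl (fun i hi => ?_)
              rw [Finset.mem_erase] at hi
              have hie : i ≠ e' := by
                rintro rfl
                exact heX hi.2
              simp [Equiv.swap_apply_of_ne_of_ne hie hi.1]
            · simp [he']
          rw [e1, ← Finset.sum_erase_add (c X) _ hfX, hf']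
          simp only
          omega
        · intro a b hab
          simp only
          rw [he a b hab]
          have hb := same_spec e f st hs a b hab
          ext i
          rw [Finset.mem_map_equiv, mem_dec, mem_dec, Equiv.symm_swap]
          by_cases h1 : i = e'
          · subst h1
            rw [Equiv.swap_apply_left, hf', he']
            simp only
            rw [hb]
          · by_cases h2 : i = f'
            · subst h2
              rw [Equiv.swap_apply_right, hf', he']
              simp only
              rw [hb]
            · rw [Equiv.swap_apply_of_ne_of_ne h1 h2]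
      · exact h c hc he P hP hPr (by simpa using hmov)
  intro c hc he
  exact key _ c hc he rfl

theorem run_sound (r p : ℕ) (cols : List ℕ)
    (hcols : ∀ P, P < 2 ^ r → pc r P = p → P ∈ cols) :
    ∀ (fuel : ℕ) (st : List (ℕ × ℕ)) (cert : List ℕ),
      (∀ a b, (a, b) ∈ st → (dec r a).card = p) →
      (run r p cols fuel st cert).isSome = true →
      ∀ c, Bad p c → Extends r st c → False := by
  intro fuel
  induction fuel with
  | zero => intro st cert _ h; simp [run] at h
  | succ fuel ih =>
    intro st cert hst h
    cases cert with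
    | nil => simp [run] at h
    | cons B cert =>
      simp only [run] at h
      split_ifs at h with hB
      · have hB' : (dec r B).card = p := by
          rw [card_dec]; exact Nat.eq_of_beq_eq_true hB
        refine reduce st (dec r B) ?_
        intro c hc he P hP hPr hmov
        have hPp : pc r P = p := by
          rw [← card_dec, hP]; exact hc.1 _ hB'
        rcases loop_spec _ _ cols cert h P (hcols P hPr hPp) with h1 | ⟨cert', h1⟩
        · rw [hmov, Bool.or_false] at h1
          obtain ⟨a, b, hab, h2, h3⟩ := killed_spec r p B P st h1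
          have hne : dec r a ≠ dec r B := by
            intro h4
            rw [← card_dec, dec_and, h4, Finset.inter_self, hB'] at h3
            exact lt_irrefl _ h3
          refine hc.2 (dec r a) (dec r B) (hst a b hab) hB' hne ?_
          rw [he a b hab, ← hP, ← dec_and, ← dec_and, card_dec, card_dec]
          exact h2.symm
        · refine ih ((B, P) :: st) cert' ?_ h1 c hc ?_
          · intro a b hab
            rw [List.mem_cons] at hab
            rcases hab with hab | hab
            · obtain ⟨rfl, rfl⟩ := Prod.mk.inj hab
              exact hB'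
            · exact hst a b hab
          · intro a b hab
            rw [List.mem_cons] at hab
            rcases hab with hab | hab
            · obtain ⟨rfl, rfl⟩ := Prod.mk.inj hab
              exact hP.symm
            · exact he a b hab
      · simp at h

/-- All masks of weight `p`. -/
def allCols (r p : ℕ) : List ℕ := (List.range (2 ^ r)).filter (fun n => Nat.beq (pc r n) p)

theorem mem_allCols (r p P : ℕ) (h1 : P < 2 ^ r) (h2 : pc r P = p) : P ∈ allCols r p := by
  rw [allCols, List.mem_filter, List.mem_range]
  exact ⟨h1, by rw [h2]; exact Nat.beq_refl p⟩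

/-- Bad maps are constant, given certificates. -/
theorem bad_const (r p : ℕ) (hp : 1 ≤ p) (A0 B0 : ℕ) (C : ℕ → ℕ)
    (fuel : ℕ) (cert : ℕ → List ℕ)
    (hA0 : pc r A0 = p) (hB0 : pc r B0 = p) (hAB : pc r (A0 &&& B0) = p - 1)
    (hC : ∀ k, k + 2 ≤ p → pc r (C k) = p ∧ pc r (A0 &&& C k) = k)
    (hcert : ∀ k, k + 2 ≤ p →
      (run r p (allCols r p) fuel [(B0, C k), (A0, A0)] (cert k)).isSome = true)
    (c : Finset (Fin r) → Finset (Fin r)) (hc : Bad p c) (A B : Finset (Fin r))
    (hA : A.card = p) (hB : B.card = p) : c A = c B := by
  have adj : ∀ A B : Finset (Fin r), A.card = p → B.card = p → (A ∩ B).card = p - 1 →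
      c A = c B := by
    intro A B hA hB hAB'
    by_contra hne
    have hne' : A ≠ B := by
      rintro rfl
      exact hne rfl
    have hk := hc.2 A B hA hB hne'
    obtain ⟨k, hkdef⟩ : ∃ k, k = (c A ∩ c B).card := ⟨_, rfl⟩
    have h1 : k ≤ p := by
      rw [hkdef, ← hc.1 A hA]; exact Finset.card_le_card Finset.inter_subset_left
    have h2 : k ≠ p := by
      intro h
      apply hne
      have e1 : c A ∩ c B = c A :=
        Finset.eq_of_subset_of_card_le Finset.inter_subset_left (by rw [hc.1 A hA, ← hkdef, h])
      have e2 : c A ∩ c B = c B :=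
        Finset.eq_of_subset_of_card_le Finset.inter_subset_right (by rw [hc.1 B hB, ← hkdef, h])
      rw [← e1, e2]
    have h3 : k + 2 ≤ p := by
      rw [← hkdef, hAB'] at hk
      omega
    obtain ⟨τ, hτA, hτB⟩ := two_sets (dec r A0) (dec r B0) A B (by rw [card_dec, hA0, hA])
      (by rw [card_dec, hB0, hB]) (by rw [← dec_and, card_dec, hAB, hAB'])
    obtain ⟨π, hπA, hπB⟩ := two_sets (c A) (c B) (dec r A0) (dec r (C k))
      (by rw [card_dec, hA0, hc.1 A hA]) (by rw [card_dec, (hC k h3).1, hc.1 B hB])
      (by rw [← dec_and, card_dec, (hC k h3).2, hkdef])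
    refine run_sound r p (allCols r p) (mem_allCols r p) fuel _ (cert k) ?_ (hcert k h3)
      _ (hc.comp π τ) ?_
    · intro a b hab
      simp only [List.mem_cons, List.not_mem_nil, or_false, Prod.mk.injEq] at hab
      rcases hab with ⟨rfl, _⟩ | ⟨rfl, _⟩
      · rw [card_dec, hB0]
      · rw [card_dec, hA0]
    · intro a b hab
      simp only [List.mem_cons, List.not_mem_nil, or_false, Prod.mk.injEq] at hab
      rcases hab with ⟨rfl, rfl⟩ | ⟨rfl, rfl⟩
      · show (c ((dec r _).map τ.toEmbedding)).map π.toEmbedding = _
        rw [hτB, hπB]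
      · show (c ((dec r _).map τ.toEmbedding)).map π.toEmbedding = _
        rw [hτA, hπA]
  have h2 : ∀ u : Fin r, (if u ∈ c A then (1 : ℤ) else 0) = (if u ∈ c B then (1 : ℤ) else 0) := by
    intro u
    refine exchange_const univ (fun A => if u ∈ c A then (1 : ℤ) else 0) p ?_ A B
      (Finset.subset_univ _) (Finset.subset_univ _) hA hB
    intro V x y _ hV _ _ hx hy hxy
    have h3 : (insert x V ∩ insert y V : Finset (Fin r)) = V := by
      ext a
      simp only [Finset.mem_inter, Finset.mem_insert]
      constructor
      · rintro ⟨rfl | h1, rfl | h2⟩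
        · exact absurd rfl hxy
        · exact h2
        · exact h1
        · exact h1
      · intro h
        exact ⟨Or.inr h, Or.inr h⟩
    rw [adj (insert x V) (insert y V) (by rw [Finset.card_insert_of_notMem hx, hV])
      (by rw [Finset.card_insert_of_notMem hy, hV]) (by rw [h3]; omega)]
  ext u
  have := h2 u
  constructor
  · intro h
    by_contra h'
    simp [h, h'] at this
  · intro h
    by_contra h'
    simp [h, h'] at this

end Pool.Agent.Lib.MP_e7cc07_co
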