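import Pool.Agent.Lib.MP_e7cc07_co.Search
import Pool.Agent.Lib.MP_e7cc07_co.Core

/-!
Exact maps on `p`-sets with `p ≤ 3`.
-/

namespace Pool.Agent.Lib.MP_e7cc07_co

open Finset Equiv

theorem bad_const_5_2 (c : Finset (Fin 5) → Finset (Fin 5)) (hc : Bad 2 c)
    (A B : Finset (Fin 5)) (hA : A.card = 2) (hB : B.card = 2) : c A = c B := by
  refine bad_const 5 2 (by norm_num) 3 5 (fun _ => 12) 20 (fun _ => [24, 17])
    (by decide) (by decide) (by decide) ?_ ?_ c hc A B hA hB
  · intro k hk
    have : k = 0 := by omega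
    subst this
    decide
  · intro k hk
    have : k = 0 := by omega
    subst this
    decide +kernel

theorem bad_const_7_3 (c : Finset (Fin 7) → Finset (Fin 7)) (hc : Bad 3 c)
    (A B : Finset (Fin 7)) (hA : A.card = 3) (hB : B.card = 3) : c A = c B := by
  refine bad_const 7 3 (by norm_num) 7 11 (fun k => if k = 0 then 56 else 25) 20
    (fun k => if k = 0 then
      [19, 112, 88, 76, 104, 14, 76, 28, 69, 14, 74, 13]
      else [76, 97, 98, 14, 81, 37, 70, 81, 74, 25, 98, 14, 35, 74, 81, 70, 81, 14, 81, 13,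
        50, 69, 26, 98, 69, 98])
    (by decide) (by decide) (by decide) ?_ ?_ c hc A B hA hB
  · intro k hk
    have : k = 0 ∨ k = 1 := by omega
    rcases this with rfl | rfl
    · decide
    · decide
  · intro k hk
    have : k = 0 ∨ k = 1 := by omega
    rcases this with rfl | rfl
    · decide +kernel
    · decide +kernel

theorem bad_const_8_3 (c : Finset (Fin 8) → Finset (Fin 8)) (hc : Bad 3 c)
    (A B : Finset (Fin 8)) (hA : A.card = 3) (hB : B.card = 3) : c A = c B := by
  refine bad_const 8 3 (by norm_num) 7 11 (fun k => if k = 0 then 56 else 25) 20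
    (fun k => if k = 0 then
      [112, 145, 56, 168, 100, 164, 168, 19, 162, 50, 25, 104, 56, 161, 44, 21, 44, 74, 145, 52,
        164, 21, 70, 52, 140, 52, 35, 52, 168, 100, 133, 162, 73, 67, 100, 145, 196, 38, 146, 26,
        168, 76, 13, 22, 168, 38, 69, 164, 42, 42]
      else [145, 50, 81, 137, 44, 97, 73, 42, 140, 97, 133, 38, 140, 140, 193, 56, 97, 70, 76,
        35, 164, 44, 35, 140, 21, 25, 146, 38, 138, 162, 69, 50, 26, 140, 42, 200, 37, 50, 42,
        44, 21, 162, 42, 82, 21, 138, 56, 97, 69, 50, 193, 194, 76, 104, 137, 104, 76])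
    (by decide) (by decide) (by decide) ?_ ?_ c hc A B hA hB
  · intro k hk
    have : k = 0 ∨ k = 1 := by omega
    rcases this with rfl | rfl
    · decide
    · decide
  · intro k hk
    have : k = 0 ∨ k = 1 := by omega
    rcases this with rfl | rfl
    · decide +kernel
    · decide +kernel

/-- Exact maps on `q`-sets are constant for `q ≤ 3` and `r ≥ 2 q + 1`. -/
theorem exact_const_small (r q : ℕ) (hq : q ≤ 3) (hr : 2 * q + 1 ≤ r)
    (c : Finset (Fin r) → Finset (Fin r)) (hc : Exact q c) (A B : Finset (Fin r))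
    (hA : A.card = q) (hB : B.card = q) : c A = c B := by
  interval_cases q
  · rw [Finset.card_eq_zero] at hA hB
    rw [hA, hB]
  · by_contra hne
    have hAB : A ≠ B := by
      rintro rfl
      exact hne rfl
    have h1 := hc.bad.2 A B hA hB hAB
    have h2 : (A ∩ B).card = 0 := by
      rw [Finset.card_eq_one] at hA hB
      obtain ⟨a, rfl⟩ := hA
      obtain ⟨b, rfl⟩ := hB
      rw [Finset.card_eq_zero, Finset.singleton_inter_of_notMem]
      rw [Finset.mem_singleton]
      rintro rfl
      exact hAB rfl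
    rw [h2] at h1
    have h3 := hc.1 A hA
    have h4 := hc.1 B hB
    rw [Finset.card_eq_one] at h3 h4
    obtain ⟨a, ha⟩ := h3
    obtain ⟨b, hb⟩ := h4
    rw [ha, hb] at h1 hne
    apply h1
    rw [Finset.card_eq_zero, Finset.singleton_inter_of_notMem]
    rw [Finset.mem_singleton]
    rintro rfl
    exact hne rfl
  · rcases Nat.lt_or_ge 5 r with h | h
    · refine exact_const_large 2 (by norm_num) c hc ?_ A B hA hB
      rw [Fintype.card_fin]
      norm_num
      omega
    · have : r = 5 := by omega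
      subst this
      exact bad_const_5_2 c hc.bad A B hA hB
  · rcases Nat.lt_or_ge 8 r with h | h
    · refine exact_const_large 3 (by norm_num) c hc ?_ A B hA hB
      rw [Fintype.card_fin]
      norm_num
      omega
    · have : r = 7 ∨ r = 8 := by omega
      rcases this with rfl | rfl
      · exact bad_const_7_3 c hc.bad A B hA hB
      · exact bad_const_8_3 c hc.bad A B hA hB

/-- The parameters covered. -/
def Covered (r p : ℕ) : Prop :=
  (r ≠ 2 * p ∧ (p ≤ 3 ∨ r ≤ p + 3)) ∨ 2 ^ (p - 1) + 2 ≤ r - p ∨ 2 ^ (r - p - 1) + 2 ≤ p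

theorem exact_const_half (r q : ℕ) (hr : 2 * q + 1 ≤ r)
    (h : q ≤ 3 ∨ 2 ^ (q - 1) + 2 ≤ r - q)
    (c : Finset (Fin r) → Finset (Fin r)) (hc : Exact q c) (A B : Finset (Fin r))
    (hA : A.card = q) (hB : B.card = q) : c A = c B := by
  rcases Nat.lt_or_ge 3 q with h3 | h3
  · refine exact_const_large q (by omega) c hc ?_ A B hA hB
    rw [Fintype.card_fin]
    rcases h with h | h
    · omega
    · exact h
  · exact exact_const_small r q h3 hr c hc A B hA hB

theorem exact_const (r p : ℕ) (hpr : p ≤ r) (h : Covered r p)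
    (c : Finset (Fin r) → Finset (Fin r)) (hc : Exact p c) (A B : Finset (Fin r))
    (hA : A.card = p) (hB : B.card = p) : c A = c B := by
  have h1p : ∀ m : ℕ, m ≤ 2 ^ (m - 1) := by
    intro m
    rcases Nat.eq_zero_or_pos m with rfl | hm
    · simp
    · exact two_pow_ge m hm
  have key : 2 * p + 1 ≤ r ∧ (p ≤ 3 ∨ 2 ^ (p - 1) + 2 ≤ r - p) ∨
      2 * (r - p) + 1 ≤ r ∧ ((r - p) ≤ 3 ∨ 2 ^ ((r - p) - 1) + 2 ≤ r - (r - p)) := by
    rcases h with ⟨h1, h2⟩ | h2 | h2
    · omega
    · left
      have := h1p p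
      exact ⟨by omega, Or.inr h2⟩
    · right
      have := h1p (r - p)
      have e : r - (r - p) = p := by omega
      rw [e]
      exact ⟨by omega, Or.inr h2⟩
  rcases key with ⟨h1, h2⟩ | ⟨h1, h2⟩
  · exact exact_const_half r p h1 h2 c hc A B hA hB
  · have hc' := hc.compl (by rw [Fintype.card_fin]; exact hpr)
    rw [Fintype.card_fin] at hc'
    have h3 := exact_const_half r (r - p) h1 h2 _ hc' Aᶜ Bᶜ
      (by rw [Finset.card_compl, Fintype.card_fin, hA])
      (by rw [Finset.card_compl, Fintype.card_fin, hB])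
    simp only [compl_compl, compl_inj_iff] at h3
    exact h3

end Pool.Agent.Lib.MP_e7cc07_co
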